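import Mathlib
import Pool.Agent.N534.TL.Main2

/-!
# Families of Euler products whose coefficients are functions of the reduction: an abstract majorant

`N p` and `B p` are functions of the vectors modulo `p` (`Pool.Agent.Y722.LS.Fam`): `N p` has mean
`O(p^{-2})` and second moment `O(p^{-2})`, and `B p` is the indicator of bad reduction.  The Euler products
with the coefficients `∑ α p j`, which differ at the primes of good reduction from a fixed system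
`∑ α₀ p j + e p^m` by `p^{m+1} N p (c mod p) + O(p^{m-1/2})`, are near the line `Re s = m + 1` like the fixed
one times `ζ(s - m)^e`, in mean square over the vectors `c` in a box.
-/

set_option autoImplicit false

namespace Pool.Agent.L7h11.RS

open Finset Pool.Agent.Y722.HS Pool.Agent.Y722.LS Pool.Agent.N534.TL

variable {ι : Type} [Fintype ι] [DecidableEq ι] {A : ℝ} {N B : ∀ p : ℕ, (ι → ZMod p) → ℝ}

/-- the system `α` belongs to the vector `c` -/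
structure Rel (N B : ∀ p : ℕ, (ι → ZMod p) → ℝ) (m : ℕ) (e CE : ℝ) {b b₀ : ℕ}
    (α₀ : ℕ → Fin b₀ → ℂ) (c : ι → ℤ) (α : ℕ → Fin b → ℂ) : Prop where
  bound : ∀ p : ℕ, p.Prime → ∀ j, ‖α p j‖ ≤ (p : ℝ) ^ m
  near : ∀ p : ℕ, p.Prime → B p (red p c) ≠ 1 →
    ‖(∑ j, α p j) - (∑ j, α₀ p j) - ((e * (p : ℝ) ^ m + (p : ℝ) ^ (m + 1) * N p (red p c) : ℝ) : ℂ)‖ ≤
      CE * (p : ℝ) ^ ((m : ℝ) - 1 / 2)

theorem cpow_ss (m p : ℕ) (hp : p.Prime) (ε : ℝ) :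
    (p : ℂ) ^ (-ss (2 * m + 1) ε) = (((p : ℝ) ^ (-ε) / (p : ℝ) ^ (m + 1) : ℝ) : ℂ) := by
  have hp0 : (0 : ℝ) < p := by exact_mod_cast hp.pos
  have hss : (((2 * m + 1 : ℕ) : ℝ) + 1) / 2 = ((m + 1 : ℕ) : ℝ) := by push_cast; ring
  have h1 : (p : ℝ) ^ (-ε) / (p : ℝ) ^ (m + 1) = (p : ℝ) ^ (-(((m + 1 : ℕ) : ℝ) + ε)) := by
    rw [neg_add, Real.rpow_add hp0, Real.rpow_neg hp0.le ((m + 1 : ℕ) : ℝ), Real.rpow_natCast]
    ring
  rw [h1, Complex.ofReal_cpow hp0.le]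
  congr 1
  unfold ss
  rw [hss]
  push_cast
  ring

theorem sum_twist {b : ℕ} (α : ℕ → Fin b → ℂ) (τ : ℝ) (p : ℕ) :
    (∑ j, twist α τ p j) = (∑ j, α p j) * (p : ℂ) ^ (-((τ : ℂ) * Complex.I)) := by
  rw [Finset.sum_mul]
  rfl

/-- a system of bounded numbers contributes at most `b / p` -/
theorem term_le {b : ℕ} {m p : ℕ} (hp : p.Prime) {α : ℕ → Fin b → ℂ}
    (h : ∀ j, ‖α p j‖ ≤ (p : ℝ) ^ m) (ε τ : ℝ) (hε : 0 ≤ ε) :
    |((∑ j, twist α τ p j) * (p : ℂ) ^ (-ss (2 * m + 1) ε)).re| ≤ b / p := by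
  have hp0 : (0 : ℝ) < p := by exact_mod_cast hp.pos
  have hp1 : (1 : ℝ) ≤ p := by exact_mod_cast hp.one_lt.le
  have hpε : (p : ℝ) ^ (-ε) ≤ 1 := Real.rpow_le_one_of_one_le_of_nonpos hp1 (by linarith)
  refine (Complex.abs_re_le_norm _).trans ?_
  rw [sum_twist, norm_mul, norm_mul, norm_pi p hp, mul_one, cpow_ss m p hp, Complex.norm_real,
    Real.norm_of_nonneg (by positivity)]
  have h3 : ‖∑ j, α p j‖ ≤ b * (p : ℝ) ^ m := by
    refine (norm_sum_le _ _).trans ?_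
    refine (Finset.sum_le_sum fun j _ => h j).trans ?_
    rw [Finset.sum_const, nsmul_eq_mul, Finset.card_univ, Fintype.card_fin]
  calc _ ≤ b * (p : ℝ) ^ m * (1 / (p : ℝ) ^ (m + 1)) := by gcongr
    _ = _ := by rw [pow_succ]; field_simp

section
variable {m : ℕ} {e CE : ℝ} {b b₀ : ℕ} {α₀ : ℕ → Fin b₀ → ℂ} {c : ι → ℤ} {α : ℕ → Fin b → ℂ}

theorem term_near (hfam : Fam A N B) (hB : ∀ p (c : ι → ZMod p), B p c = 0 ∨ B p c = 1)
    (hCE : 0 ≤ CE)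
    (h₀ : ∀ p : ℕ, p.Prime → ∀ j, ‖α₀ p j‖ ≤ (p : ℝ) ^ m) (h : Rel N B m e CE α₀ c α)
    (p : ℕ) (hp : p.Prime) (ε τ : ℝ) (hε : 0 ≤ ε) :
    |((∑ j, twist α τ p j) * (p : ℂ) ^ (-ss (2 * m + 1) ε)).re -
      ((p : ℝ) ^ (-ε) * ((p : ℂ) ^ (-((τ : ℂ) * Complex.I))).re * N p (red p c) +
        (((∑ j, twist α₀ τ p j) * (p : ℂ) ^ (-ss (2 * m + 1) ε)).re +
        e * ((p : ℝ) ^ (-1 - ε) * ((p : ℂ) ^ (-((τ : ℂ) * Complex.I))).re)))| ≤
      bb N B (b + b₀ + |e|) p (red p c) + CE * (1 / (p : ℝ) ^ ((3 : ℝ) / 2)) := by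
  have hp0 : (0 : ℝ) < p := by exact_mod_cast hp.pos
  have hp1 : (1 : ℝ) ≤ p := by exact_mod_cast hp.one_lt.le
  have hpε : (p : ℝ) ^ (-ε) ≤ 1 := Real.rpow_le_one_of_one_le_of_nonpos hp1 (by linarith)
  have hpε0 : 0 < (p : ℝ) ^ (-ε) := by positivity
  set r : ℂ := (p : ℂ) ^ (-((τ : ℂ) * Complex.I)) with hr
  have hr1 : ‖r‖ = 1 := norm_pi p hp τ
  have hre : |r.re| ≤ 1 := (Complex.abs_re_le_norm r).trans hr1.le
  have hq : (p : ℝ) ^ (-1 - ε) = (p : ℝ) ^ (-ε) / p := by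
    rw [show (-1 - ε : ℝ) = -1 + -ε by ring, Real.rpow_add hp0, Real.rpow_neg_one]
    ring
  by_cases hb : B p (red p c) = 1
  · have h1 : bb N B (b + b₀ + |e|) p (red p c) = |N p (red p c)| + (b + b₀ + |e|) / p := by
      unfold bb; rw [hb, one_mul]
    rw [h1]
    have h2 := term_le hp (h.bound p hp) ε τ hε
    have h3 := term_le hp (h₀ p hp) ε τ hε
    have h4 : |(p : ℝ) ^ (-ε) * r.re * N p (red p c)| ≤ |N p (red p c)| := by
      rw [abs_mul, abs_mul, abs_of_pos hpε0]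
      calc _ ≤ 1 * 1 * |N p (red p c)| := by gcongr
        _ = _ := by ring
    have h5 : |e * ((p : ℝ) ^ (-1 - ε) * r.re)| ≤ |e| / p := by
      rw [abs_mul, abs_mul, hq, abs_of_pos (show (0 : ℝ) < (p : ℝ) ^ (-ε) / p by positivity)]
      calc _ ≤ |e| * (1 / p * 1) := by gcongr
        _ = _ := by ring
    have h6 : 0 ≤ CE * (1 / (p : ℝ) ^ ((3 : ℝ) / 2)) := by positivity
    set X := ((∑ j, twist α τ p j) * (p : ℂ) ^ (-ss (2 * m + 1) ε)).re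
    set Y := ((∑ j, twist α₀ τ p j) * (p : ℂ) ^ (-ss (2 * m + 1) ε)).re
    have i1 := abs_sub X ((p : ℝ) ^ (-ε) * r.re * N p (red p c) + (Y + e * ((p : ℝ) ^ (-1 - ε) * r.re)))
    have i2 := abs_add_le ((p : ℝ) ^ (-ε) * r.re * N p (red p c)) (Y + e * ((p : ℝ) ^ (-1 - ε) * r.re))
    have i3 := abs_add_le Y (e * ((p : ℝ) ^ (-1 - ε) * r.re))
    have h7 : ((b : ℝ) + b₀ + |e|) / p = b / p + b₀ / p + |e| / p := by ring
    rw [h7]
    linarith
  · have hb0 : B p (red p c) = 0 := (hB p _).resolve_right hb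
    have h1 : bb N B (b + b₀ + |e|) p (red p c) = 0 := by
      unfold bb; rw [hb0, zero_mul]
    rw [h1, zero_add, sum_twist, sum_twist, cpow_ss m p hp]
    have h2 := h.near p hp hb
    set X := ∑ j, α p j
    set Y := ∑ j, α₀ p j
    set t : ℝ := (p : ℝ) ^ (-ε) / (p : ℝ) ^ (m + 1) with ht
    have ht0 : 0 < t := by positivity
    have e1 : (X * r * (t : ℂ)).re - ((p : ℝ) ^ (-ε) * r.re * N p (red p c) +
        ((Y * r * (t : ℂ)).re + e * ((p : ℝ) ^ (-1 - ε) * r.re))) =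
        ((X - Y - ((e * (p : ℝ) ^ m + (p : ℝ) ^ (m + 1) * N p (red p c) : ℝ) : ℂ)) * r *
          (t : ℂ)).re := by
      have e2 : (((e * (p : ℝ) ^ m + (p : ℝ) ^ (m + 1) * N p (red p c) : ℝ) : ℂ) * r * (t : ℂ)).re =
          (p : ℝ) ^ (-ε) * r.re * N p (red p c) + e * ((p : ℝ) ^ (-1 - ε) * r.re) := by
        rw [Complex.re_mul_ofReal, Complex.re_ofReal_mul, hq, ht]
        field_simp
        ring
      rw [sub_mul, sub_mul, sub_mul, sub_mul, Complex.sub_re, Complex.sub_re, e2]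
      ring
    rw [e1]
    refine (Complex.abs_re_le_norm _).trans ?_
    rw [norm_mul, norm_mul, hr1, mul_one, Complex.norm_real, Real.norm_of_nonneg ht0.le]
    have h3 : t ≤ 1 / (p : ℝ) ^ (m + 1) := by
      rw [ht]; gcongr
    calc _ ≤ CE * (p : ℝ) ^ ((m : ℝ) - 1 / 2) * (1 / (p : ℝ) ^ (m + 1)) := by gcongr
      _ = _ := by
          have e2 : (p : ℝ) ^ (m + 1) = (p : ℝ) ^ ((m : ℝ) - 1 / 2) * (p : ℝ) ^ ((3 : ℝ) / 2) := by
            rw [← Real.rpow_add hp0, ← Real.rpow_natCast]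
            congr 1
            push_cast
            ring
          rw [e2]
          field_simp

theorem ZC_re (y : ℕ) (ε τ : ℝ) : (ZC N y c (ε + τ * Complex.I)).re =
    ∑ p ∈ PR y, (p : ℝ) ^ (-ε) * ((p : ℂ) ^ (-((τ : ℂ) * Complex.I))).re * N p (red p c) := by
  unfold ZC
  rw [Complex.re_sum]
  refine Finset.sum_congr rfl fun p hp => ?_
  have hpp := (mem_PR.mp hp).2
  have hp0 : (0 : ℝ) < p := by exact_mod_cast hpp.pos
  have hpc : (p : ℂ) ≠ 0 := by exact_mod_cast hpp.ne_zero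
  have e2 : (p : ℂ) ^ (-((ε : ℂ) + τ * Complex.I)) =
      (((p : ℝ) ^ (-ε) : ℝ) : ℂ) * (p : ℂ) ^ (-((τ : ℂ) * Complex.I)) := by
    rw [Complex.ofReal_cpow hp0.le, neg_add, Complex.cpow_add _ _ hpc]
    push_cast
    ring
  rw [e2, Complex.re_mul_ofReal, Complex.re_ofReal_mul]

/-- the L-function of one member -/
theorem one_near (hfam : Fam A N B) (hB : ∀ p (c : ι → ZMod p), B p c = 0 ∨ B p c = 1)
    (hCE : 0 ≤ CE)
    (h₀ : ∀ p : ℕ, p.Prime → ∀ j, ‖α₀ p j‖ ≤ (p : ℝ) ^ m) (h : Rel N B m e CE α₀ c α)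
    (y : ℕ) (hy : 1 ≤ y) (ε τ : ℝ) (hε : 0 < ε) (hε1 : ε ≤ 1)
    (hyε : 1 ≤ 4 * (ε * Real.log (y + 1))) :
    |Real.log ‖LP α (ss (2 * m + 1) ε + τ * Complex.I)‖ -
      (Real.log ‖LP α₀ (ss (2 * m + 1) ε + τ * Complex.I)‖ +
      e * Real.log ‖riemannZeta (1 + ε + τ * Complex.I)‖)| ≤
      ‖ZC N y c (ε + τ * Complex.I)‖ + ∑ p ∈ PR y, bb N B (b + b₀ + |e|) p (red p c) +
        (CE * SS + (b * SS + 128 * b) + (b₀ * SS + 128 * b₀) + |e| * (SS + 128)) := by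
  have hbd : ∀ {b' : ℕ} {α' : ℕ → Fin b' → ℂ}, (∀ p : ℕ, p.Prime → ∀ j, ‖α' p j‖ ≤ (p : ℝ) ^ m) →
      |Real.log ‖LP α' (ss (2 * m + 1) ε + τ * Complex.I)‖ -
        ∑ p ∈ PR y, ((∑ j, twist α' τ p j) * (p : ℂ) ^ (-ss (2 * m + 1) ε)).re| ≤
        b' * SS + 128 * b' := by
    intro b' α' h'
    have hbound : ∀ p : ℕ, p.Prime → ∀ j,
        ‖twist α' τ p j‖ ≤ (p : ℝ) ^ ((((2 * m + 1 : ℕ) : ℝ) - 1) / 2) := by
      intro p hp j
      have e : (((2 * m + 1 : ℕ) : ℝ) - 1) / 2 = (m : ℝ) := by push_cast; ring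
      rw [e, Real.rpow_natCast, twist_norm α' τ p hp]
      exact h' p hp j
    have h1 := log_LP (n := 2 * m + 1) hε hε1 hbound y hy
    rw [LP_twist] at h1
    have h16 : 16 / (ε * Real.log (y + 1)) ≤ 64 := by
      rw [div_le_iff₀ (by linarith)]
      linarith
    have h3 : 2 * (b' : ℝ) * (16 / (ε * Real.log (y + 1))) ≤ 128 * b' := by
      calc _ ≤ 2 * (b' : ℝ) * 64 := by gcongr
        _ = _ := by ring
    linarith
  have h1 := hbd h.bound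
  have h2 := hbd h₀
  have h3 := prime_line ε τ hε hε1 y hy hyε
  have h4 : |∑ p ∈ PR y, ((∑ j, twist α τ p j) * (p : ℂ) ^ (-ss (2 * m + 1) ε)).re -
      ((ZC N y c (ε + τ * Complex.I)).re +
        (∑ p ∈ PR y, ((∑ j, twist α₀ τ p j) * (p : ℂ) ^ (-ss (2 * m + 1) ε)).re +
        e * ∑ p ∈ PR y, (p : ℝ) ^ (-1 - ε) * ((p : ℂ) ^ (-((τ : ℂ) * Complex.I))).re))| ≤
      ∑ p ∈ PR y, bb N B (b + b₀ + |e|) p (red p c) + CE * SS := by
    have h5 : CE * ∑ p ∈ PR y, (1 / (p : ℝ) ^ ((3 : ℝ) / 2)) ≤ CE * SS :=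
      mul_le_mul_of_nonneg_left (sum_le_SS _) hCE
    refine le_trans ?_ (add_le_add le_rfl h5)
    rw [ZC_re, Finset.mul_sum, Finset.mul_sum, ← Finset.sum_add_distrib, ← Finset.sum_add_distrib,
      ← Finset.sum_sub_distrib, ← Finset.sum_add_distrib]
    refine (Finset.abs_sum_le_sum_abs _ _).trans (Finset.sum_le_sum fun p hp => ?_)
    exact term_near hfam hB hCE h₀ h p (mem_PR.mp hp).2 ε τ hε.le
  have h5 := Complex.abs_re_le_norm (ZC N y c (ε + τ * Complex.I))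
  set L := Real.log ‖LP α (ss (2 * m + 1) ε + τ * Complex.I)‖
  set L₀ := Real.log ‖LP α₀ (ss (2 * m + 1) ε + τ * Complex.I)‖
  set S1 := ∑ p ∈ PR y, ((∑ j, twist α τ p j) * (p : ℂ) ^ (-ss (2 * m + 1) ε)).re
  set S0 := ∑ p ∈ PR y, ((∑ j, twist α₀ τ p j) * (p : ℂ) ^ (-ss (2 * m + 1) ε)).re
  set S2 := ∑ p ∈ PR y, (p : ℝ) ^ (-1 - ε) * ((p : ℂ) ^ (-((τ : ℂ) * Complex.I))).re
  set Zz := (ZC N y c (ε + τ * Complex.I)).re
  set l := Real.log ‖riemannZeta (1 + ε + τ * Complex.I)‖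
  set S4 := ∑ p ∈ PR y, bb N B (b + b₀ + |e|) p (red p c)
  have e0 : L - (L₀ + e * l) = (L - S1) + (S1 - (Zz + (S0 + e * S2))) + Zz - (L₀ - S0) +
      e * (S2 - l) := by ring
  rw [e0]
  have i1 := abs_add_le ((L - S1) + (S1 - (Zz + (S0 + e * S2))) + Zz - (L₀ - S0)) (e * (S2 - l))
  have i2 := abs_sub ((L - S1) + (S1 - (Zz + (S0 + e * S2))) + Zz) (L₀ - S0)
  have i3 := abs_add_le ((L - S1) + (S1 - (Zz + (S0 + e * S2)))) Zz
  have i4 := abs_add_le (L - S1) (S1 - (Zz + (S0 + e * S2)))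
  have i5 : |e * (S2 - l)| ≤ |e| * (SS + 128) := by
    rw [abs_mul]
    gcongr
  linarith

end

/-- **The majorant**: for every height `H` and every `T` there is a function on the box, with a mean of
at most `C (1 + T)`, which is at least the square of the error at all the points of the region. -/
theorem majorant (hfam : Fam A N B) (hB : ∀ p (c : ι → ZMod p), B p c = 0 ∨ B p c = 1)
    (m : ℕ) (e CE : ℝ) (hCE : 0 ≤ CE) (b : ℕ) {b₀ : ℕ} (α₀ : ℕ → Fin b₀ → ℂ)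
    (h₀ : ∀ p : ℕ, p.Prime → ∀ j, ‖α₀ p j‖ ≤ (p : ℝ) ^ m) :
    ∃ C : ℝ, 0 < C ∧ ∀ H : ℕ, 2 ≤ H → ∀ T : ℝ, 0 ≤ T → ∃ M : (ι → ℤ) → ℝ,
      (∀ c, 0 ≤ M c) ∧ EB H M ≤ C * (1 + T) ∧
      ∀ (c : ι → ℤ) (α : ℕ → Fin b → ℂ) (ε τ : ℝ), Rel N B m e CE α₀ c α →
        1 / Real.log H ≤ ε → ε ≤ 1 → |τ| ≤ T →
        (Real.log ‖LP α (m + 1 + ε + τ * Complex.I)‖ -
          (Real.log ‖LP α₀ (m + 1 + ε + τ * Complex.I)‖ +
          e * Real.log ‖riemannZeta (1 + ε + τ * Complex.I)‖)) ^ 2 ≤ M c := by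
  have hA1 := hfam.A0
  set β : ℝ := b + b₀ + |e| with hβ
  have hβ0 : 0 ≤ β := by positivity
  have hSS := SS_nonneg
  set K : ℝ := CE * SS + (b * SS + 128 * b) + (b₀ * SS + 128 * b₀) + |e| * (SS + 128) with hK
  have hK0 : 0 ≤ K := by positivity
  have hK1 : 0 ≤ K1 ι A := by
    unfold K1
    positivity
  have hK4 : 0 ≤ K4 ι A β :=
    le_trans (by unfold EB; positivity) (hfam.EB_bb_sq hβ0 0 0 (by norm_num))
  refine ⟨3 * (11 * (4 * Real.pi * K1 ι A)) + 3 * K4 ι A β + 3 * K ^ 2 + 1, by positivity, ?_⟩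
  intro H hH T hT
  obtain ⟨y, hy1, hy4, hyl⟩ := exists_y H hH
  have hlogH : 0 < Real.log H := Real.log_pos (by exact_mod_cast (by omega : 1 < H))
  set k : ℕ := ⌈4 * T + 1⌉₊ with hk
  have hk1 : 4 * T + 1 ≤ k := Nat.le_ceil _
  have hk2 : (k : ℝ) < 4 * T + 2 := by
    have := Nat.ceil_lt_add_one (a := 4 * T + 1) (by positivity)
    linarith
  refine ⟨fun c => 3 * G2 N y k c +
    3 * (∑ p ∈ PR y, bb N B β p (red p c)) ^ 2 + 3 * K ^ 2, ?_, ?_, ?_⟩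
  · intro c
    have := G2_nonneg (N := N) y k c
    positivity
  · rw [EB_add, EB_add, EB_const, Pool.Agent.Y722.HS.EB_mul, Pool.Agent.Y722.HS.EB_mul]
    have e1 := EB_G2 hfam H y k hy4
    have e2 := hfam.EB_bb_sq hβ0 H y hy4
    have hpi := Real.pi_pos
    have e3 : (2 * (k : ℝ) + 1) * (4 * Real.pi * K1 ι A) ≤ (11 * (1 + T)) * (4 * Real.pi * K1 ι A) := by
      apply mul_le_mul_of_nonneg_right _ (by positivity)
      linarith
    have e4 : 3 * K4 ι A β ≤ 3 * K4 ι A β * (1 + T) := le_mul_of_one_le_right (by positivity) (by linarith)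
    have e5 : 3 * K ^ 2 ≤ 3 * K ^ 2 * (1 + T) := le_mul_of_one_le_right (by positivity) (by linarith)
    nlinarith
  · intro c α ε τ hα hε0 hε1 hτ
    have hεp : 0 < ε := lt_of_lt_of_le (by positivity) hε0
    have hyε : 1 ≤ 4 * (ε * Real.log (y + 1)) := by
      have h4 : 1 ≤ ε * Real.log H := by
        rw [div_le_iff₀ hlogH] at hε0
        exact hε0
      calc (1 : ℝ) ≤ ε * Real.log H := h4
        _ ≤ ε * (4 * Real.log (y + 1)) := by gcongr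
        _ = _ := by ring
    have hs1 : ss (2 * m + 1) ε = (m : ℂ) + 1 + ε := by
      unfold ss
      push_cast
      ring
    have h1 := one_near hfam hB hCE h₀ hα y hy1 ε τ hεp hε1 hyε
    rw [← hβ, ← hK, hs1] at h1
    have h2 := ZC_le (N := N) y k c ε τ hεp.le hε1 (by linarith)
    set X := Real.log ‖LP α (m + 1 + ε + τ * Complex.I)‖ -
      (Real.log ‖LP α₀ (m + 1 + ε + τ * Complex.I)‖ +
      e * Real.log ‖riemannZeta (1 + ε + τ * Complex.I)‖)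
    set z := ‖ZC N y c (ε + τ * Complex.I)‖
    set w := ∑ p ∈ PR y, bb N B β p (red p c)
    have hK0 : 0 ≤ z + w + K := le_trans (abs_nonneg _) h1
    have h4 : X ^ 2 ≤ (z + w + K) ^ 2 := by
      rw [← sq_abs X]
      gcongr
    have h5 : (z + w + K) ^ 2 ≤ 3 * z ^ 2 + 3 * w ^ 2 + 3 * K ^ 2 := by
      nlinarith [sq_nonneg (z - w), sq_nonneg (z - K), sq_nonneg (w - K)]
    simp only
    linarith

end Pool.Agent.L7h11.RS
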