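import Mathlib
import Pool.Agent.Y722.LS.Bad

/-!
# Elimination: systems of forms whose coefficients are polynomials in parameters

If the system has no common zero in the complex projective space for one integer value of the parameters, then
there is a polynomial in the parameters, with integer coefficients, which does not vanish there, and such that over
every field there are no common zeros at the values of the parameters where it does not vanish.
-/

set_option autoImplicit false

namespace Pool.Agent.L7h11.RS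

open Finset Pool.Agent.Y722.HS Pool.Agent.Y722.LS

variable {n : ℕ} {ι : Type} [Fintype ι] [DecidableEq ι] {J : Type} [Fintype J]

theorem pow_mem_of_no_zero (Q : J → MvPolynomial (Fin (n + 1)) ℤ)
    (hs : ∀ x : Fin (n + 1) → ℂ, (∀ j, MvPolynomial.aeval x (Q j) = 0) → x = 0) :
    ∃ (a : ℤ) (k : ℕ), a ≠ 0 ∧ ∀ i, MvPolynomial.C a * MvPolynomial.X i ^ k ∈
      Ideal.span (Set.range Q) := by
  set I := Ideal.span (Set.range Q) with hI
  have hmap : I.map (MvPolynomial.map (Int.castRingHom ℚ)) =
      Ideal.span (Set.range fun j => MvPolynomial.map (Int.castRingHom ℚ) (Q j)) := by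
    rw [hI, Ideal.map_span, ← Set.range_comp]
    rfl
  have hzero : MvPolynomial.zeroLocus ℂ (I.map (MvPolynomial.map (Int.castRingHom ℚ))) ⊆
      ({0} : Set (Fin (n + 1) → ℂ)) := by
    intro x hx
    rw [hmap, MvPolynomial.zeroLocus_span] at hx
    rw [Set.mem_singleton_iff]
    apply hs
    intro j
    have h1 := hx _ ⟨j, rfl⟩
    rw [MvPolynomial.aeval_def, MvPolynomial.eval₂_map] at h1
    have h2 : (algebraMap ℚ ℂ).comp (Int.castRingHom ℚ) = algebraMap ℤ ℂ :=
      RingHom.ext_int _ _
    rw [h2] at h1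
    rw [MvPolynomial.aeval_def]
    exact h1
  have hrad : ∀ i : Fin (n + 1), ∃ k : ℕ, ∃ a : ℤ, a ≠ 0 ∧
      MvPolynomial.C a * MvPolynomial.X i ^ k ∈ I := by
    intro i
    have h1 : (MvPolynomial.X i : MvPolynomial (Fin (n + 1)) ℚ) ∈
        (I.map (MvPolynomial.map (Int.castRingHom ℚ))).radical := by
      rw [← MvPolynomial.vanishingIdeal_zeroLocus_eq_radical (K := ℂ),
        MvPolynomial.mem_vanishingIdeal_iff]
      intro x hx
      have h2 := hzero hx
      rw [Set.mem_singleton_iff] at h2
      rw [h2]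
      simp
    obtain ⟨k, hk⟩ := h1
    have h3 : MvPolynomial.map (Int.castRingHom ℚ) (MvPolynomial.X i ^ k : MvPolynomial (Fin (n + 1)) ℤ)
        ∈ I.map (MvPolynomial.map (Int.castRingHom ℚ)) := by
      rw [map_pow, MvPolynomial.map_X]
      exact hk
    obtain ⟨a, ha, h4⟩ := clear_den I _ h3
    exact ⟨k, a, ha, h4⟩
  choose k a ha hka using hrad
  refine ⟨∏ i, a i, ∑ i, k i, Finset.prod_ne_zero_iff.mpr fun i _ => ha i, fun i => ?_⟩
  have h1 : MvPolynomial.C (∏ i, a i) * MvPolynomial.X i ^ (∑ i, k i) =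
      (MvPolynomial.C (∏ j ∈ univ.erase i, a j) * MvPolynomial.X i ^ (∑ j ∈ univ.erase i, k j)) *
        (MvPolynomial.C (a i) * MvPolynomial.X i ^ (k i)) := by
    rw [← Finset.mul_prod_erase univ _ (Finset.mem_univ i),
      ← Finset.add_sum_erase univ _ (Finset.mem_univ i), map_mul, pow_add]
    ring
  rw [h1]
  exact I.mul_mem_left _ (hka i)

/-- The value of a form, by its coefficients. -/
theorem eval₂_hom' {D : ℕ} {S R : Type*} [CommRing S] [CommRing R] (φ : S →+* R)
    (P : MvPolynomial (Fin (n + 1)) S) (hP : P.IsHomogeneous D) (x : Fin (n + 1) → R) :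
    MvPolynomial.eval₂ φ x P = ∑ ν : Mon n D, φ (P.coeff (toFs ν)) * mev x ν := by
  classical
  rw [MvPolynomial.eval₂_eq']
  have h1 : ∀ ν : Mon n D, φ (P.coeff (toFs ν)) * mev x ν =
      (fun m : Fin (n + 1) →₀ ℕ => φ (P.coeff m) * ∏ i, x i ^ m i) (toFs ν) := by
    intro ν
    simp [mev, toFs]
  rw [Finset.sum_congr rfl fun ν _ => h1 ν, ← Finset.sum_image (s := Finset.univ)
    (f := fun m : Fin (n + 1) →₀ ℕ => φ (P.coeff m) * ∏ i, x i ^ m i)
    (g := toFs (n := n) (D := D)) (fun a _ b _ h => toFs_inj h)]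
  apply Finset.sum_subset
  · intro m hm
    rw [Finset.mem_image]
    have h2 : ∑ i, m i = D := by
      have h3 := hP (MvPolynomial.mem_support_iff.mp hm)
      rw [Finsupp.weight_apply, Finsupp.sum_fintype _ _ (fun i => by simp)] at h3
      simpa using h3
    refine ⟨mkMon (fun i => m i) h2, Finset.mem_univ _, ?_⟩
    ext i
    simp [toFs]
  · intro m _ hm
    rw [MvPolynomial.notMem_support_iff.mp hm]
    simp

/-- the specialization of the parameters -/
noncomputable def sp {R : Type*} [CommRing R] (c : ι → R) : MvPolynomial ι ℤ →+* R :=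
  MvPolynomial.eval₂Hom (Int.castRingHom R) c

theorem sp_comp {R S : Type*} [CommRing R] [CommRing S] (φ : R →+* S) (c : ι → R) :
    φ.comp (sp c) = sp (fun i => φ (c i)) := by
  apply MvPolynomial.ringHom_ext
  · intro a
    simp [sp]
  · intro i
    simp [sp]

/-- **Elimination.** -/
theorem elim (P : J → MvPolynomial (Fin (n + 1)) (MvPolynomial ι ℤ)) (d : J → ℕ)
    (hP : ∀ j, (P j).IsHomogeneous (d j)) (c0 : ι → ℤ)
    (hs : ∀ x : Fin (n + 1) → ℂ, (∀ j, MvPolynomial.eval₂ (sp fun i => (c0 i : ℂ)) x (P j) = 0) →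
      x = 0) :
    ∃ Δ : MvPolynomial ι ℤ, MvPolynomial.eval c0 Δ ≠ 0 ∧ ∀ (K : Type) [Field K] (c : ι → K),
      MvPolynomial.eval₂ (Int.castRingHom K) c Δ ≠ 0 → ∀ x : Fin (n + 1) → K,
      (∀ j, MvPolynomial.eval₂ (sp c) x (P j) = 0) → x = 0 := by
  classical
  set Q : J → MvPolynomial (Fin (n + 1)) ℤ := fun j => MvPolynomial.map (sp c0) (P j) with hQ
  have hQh : ∀ j, (Q j).IsHomogeneous (d j) := fun j => (hP j).map _
  obtain ⟨a, k, ha, hk⟩ := pow_mem_of_no_zero Q (by
    intro x hx
    apply hs x
    intro j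
    have h1 := hx j
    rw [MvPolynomial.aeval_def, hQ, MvPolynomial.eval₂_map] at h1
    have h2 : (algebraMap ℤ ℂ).comp (sp c0) = sp fun i => (c0 i : ℂ) := by
      rw [sp_comp]
      rfl
    rwa [h2] at h1)
  set I := Ideal.span (Set.range Q) with hI
  set D : ℕ := (n + 1) * k + ∑ j, d j with hD
  have hdD : ∀ j, d j ≤ D := fun j =>
    le_trans (Finset.single_le_sum (f := d) (fun _ _ => Nat.zero_le _) (Finset.mem_univ j))
      (Nat.le_add_left _ _)
  -- all monomials of degree `D`
  have hmon : ∀ μ : Mon n D, ∃ G : J → MvPolynomial (Fin (n + 1)) ℤ,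
      (∀ j, (G j).IsHomogeneous (D - d j)) ∧ ∑ j, G j * Q j = MvPolynomial.monomial (toFs μ) a := by
    intro μ
    have h1 : ∃ i, k ≤ (μ.1 i : ℕ) := by
      by_contra hcon
      push Not at hcon
      have h2 : ∑ i, (μ.1 i : ℕ) < ∑ _i : Fin (n + 1), k := by
        apply Finset.sum_lt_sum_of_nonempty ⟨0, Finset.mem_univ _⟩
        intro i _
        exact hcon i
      rw [μ.2] at h2
      simp at h2
      omega
    obtain ⟨i, hi⟩ := h1
    have h2 : MvPolynomial.monomial (toFs μ) a ∈ I := by
      have h3 : (MvPolynomial.monomial (toFs μ) a : MvPolynomial (Fin (n + 1)) ℤ) =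
          (∏ j, MvPolynomial.X j ^ ((μ.1 j : ℕ) - if j = i then k else 0)) *
            (MvPolynomial.C a * MvPolynomial.X i ^ k) := by
        rw [MvPolynomial.monomial_eq, Finsupp.prod_fintype _ _ (fun i => by simp)]
        have h4 : ∀ j, (MvPolynomial.X j : MvPolynomial (Fin (n + 1)) ℤ) ^ (toFs μ j) =
            MvPolynomial.X j ^ ((μ.1 j : ℕ) - if j = i then k else 0) *
              MvPolynomial.X j ^ (if j = i then k else 0) := by
          intro j
          rw [← pow_add]
          congr 1
          have : toFs μ j = (μ.1 j : ℕ) := by simp [toFs]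
          rw [this]
          split_ifs with hj
          · subst hj; omega
          · simp
        rw [Finset.prod_congr rfl fun j _ => h4 j, Finset.prod_mul_distrib]
        have h5 : ∏ j, (MvPolynomial.X j : MvPolynomial (Fin (n + 1)) ℤ) ^ (if j = i then k else 0) =
            MvPolynomial.X i ^ k := by
          rw [Finset.prod_eq_single i]
          · rw [if_pos rfl]
          · intro j _ hj
            rw [if_neg hj, pow_zero]
          · intro h; exact absurd (Finset.mem_univ _) h
        rw [h5]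
        ring
      rw [h3]
      exact I.mul_mem_left _ (hk i)
    rw [hI, Ideal.mem_span_range_iff_exists_fun] at h2
    obtain ⟨g, hg⟩ := h2
    refine ⟨fun j => MvPolynomial.homogeneousComponent (D - d j) (g j), fun j =>
      MvPolynomial.homogeneousComponent_isHomogeneous _ (g j), ?_⟩
    have h3 : ∀ j, MvPolynomial.homogeneousComponent (D - d j) (g j) * Q j =
        MvPolynomial.homogeneousComponent D (g j * Q j) := by
      intro j
      rw [← hom_mul _ _ _ _ (hQh j), Nat.sub_add_cancel (hdD j)]
    rw [Finset.sum_congr rfl fun j _ => h3 j, ← map_sum, hg]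
    have h4 : (MvPolynomial.monomial (toFs μ) a : MvPolynomial (Fin (n + 1)) ℤ).IsHomogeneous D := by
      apply MvPolynomial.isHomogeneous_monomial
      rw [Finsupp.degree_eq_sum]
      have : ∀ i, toFs μ i = (μ.1 i : ℕ) := by intro i; simp [toFs]
      rw [Finset.sum_congr rfl fun i _ => this i]
      exact μ.2
    rw [MvPolynomial.homogeneousComponent_of_mem h4, if_pos rfl]
  choose G hGh hG using hmon
  -- the rows
  set R : Mon n D → MvPolynomial (Fin (n + 1)) (MvPolynomial ι ℤ) := fun μ =>
    ∑ j, MvPolynomial.map (Int.castRingHom (MvPolynomial ι ℤ)) (G μ j) * P j with hR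
  have hRh : ∀ μ, (R μ).IsHomogeneous D := by
    intro μ
    refine MvPolynomial.IsHomogeneous.sum _ _ _ fun j _ => ?_
    have := ((hGh μ j).map (Int.castRingHom (MvPolynomial ι ℤ))).mul (hP j)
    rwa [Nat.sub_add_cancel (hdD j)] at this
  set T : Matrix (Mon n D) (Mon n D) (MvPolynomial ι ℤ) := fun μ ν => (R μ).coeff (toFs ν) with hT
  refine ⟨T.det, ?_, ?_⟩
  · have h1 : (MvPolynomial.eval c0) T.det = ((MvPolynomial.eval c0).mapMatrix T).det :=
      RingHom.map_det _ _
    rw [h1]
    have hsp : sp c0 = MvPolynomial.eval c0 := by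
      apply MvPolynomial.ringHom_ext
      · intro a
        simp [sp]
      · intro i
        simp [sp]
    have h2 : (MvPolynomial.eval c0).mapMatrix T = Matrix.diagonal (fun _ => a) := by
      ext μ ν
      have h3 : (MvPolynomial.eval c0).mapMatrix T μ ν = (∑ j, G μ j * Q j).coeff (toFs ν) := by
        rw [RingHom.mapMatrix_apply, Matrix.map_apply, hT, ← hsp, ← MvPolynomial.coeff_map]
        congr 1
        rw [hR]
        simp only [map_sum, map_mul]
        refine Finset.sum_congr rfl fun j _ => ?_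
        rw [MvPolynomial.map_map, RingHom.ext_int ((sp c0).comp (Int.castRingHom (MvPolynomial ι ℤ)))
          (RingHom.id ℤ), MvPolynomial.map_id]
      rw [h3, hG, MvPolynomial.coeff_monomial, Matrix.diagonal_apply]
      by_cases h : μ = ν
      · rw [if_pos h, if_pos (by rw [h])]
      · rw [if_neg h, if_neg (fun h' => h (toFs_inj h'))]
    rw [h2, Matrix.det_diagonal, Finset.prod_const]
    exact pow_ne_zero _ ha
  · intro K _ c hc x hx
    by_contra hx0
    have h1 : MvPolynomial.eval₂ (Int.castRingHom K) c T.det = ((sp c).mapMatrix T).det :=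
      RingHom.map_det (sp c) T
    rw [h1] at hc
    apply hc
    obtain ⟨i, hi⟩ : ∃ i, x i ≠ 0 := Function.ne_iff.mp hx0
    refine Matrix.exists_mulVec_eq_zero_iff.mp ⟨fun ν => mev x ν, ?_, ?_⟩
    · intro h0
      have hs : ∑ j : Fin (n + 1), (if j = i then D else 0) = D := by simp
      have h1 := congrFun h0 (mkMon _ hs)
      simp only [mev, mkMon_apply, Pi.zero_apply] at h1
      rw [Finset.prod_eq_zero_iff] at h1
      obtain ⟨j, _, hj⟩ := h1
      split_ifs at hj with hji
      · subst hji
        by_contra h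
        exact pow_ne_zero _ hi hj
      · simp at hj
    · funext μ
      have h5 : ((sp c).mapMatrix T).mulVec (fun ν => mev x ν) μ =
          ∑ ν : Mon n D, sp c ((R μ).coeff (toFs ν)) * mev x ν := rfl
      rw [h5, ← eval₂_hom' (sp c) (R μ) (hRh μ) x, hR]
      simp only [Pi.zero_apply]
      rw [MvPolynomial.eval₂_sum]
      refine Finset.sum_eq_zero fun j _ => ?_
      rw [MvPolynomial.eval₂_mul, hx j, mul_zero]

/-- a determinant whose rows are homogeneous -/
theorem det_hom {σ S κ : Type*} [CommRing S] [Fintype κ] [DecidableEq κ]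
    (M : Matrix κ κ (MvPolynomial σ S)) (e : κ → ℕ) (h : ∀ i j, (M i j).IsHomogeneous (e i)) :
    M.det.IsHomogeneous (∑ i, e i) := by
  rw [Matrix.det_apply]
  refine MvPolynomial.IsHomogeneous.sum _ _ _ fun τ _ => ?_
  have h1 : (∏ i, M (τ i) i).IsHomogeneous (∑ i, e i) := by
    have h2 := MvPolynomial.IsHomogeneous.prod Finset.univ (fun i => M (τ i) i) (fun i => e (τ i))
      (fun i _ => h (τ i) i)
    rwa [Equiv.sum_comp τ e] at h2
  rcases Int.units_eq_one_or (Equiv.Perm.sign τ) with h3 | h3
  · rw [h3, one_smul]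
    exact h1
  · rw [h3]
    have : (-1 : ℤˣ) • ∏ i, M (τ i) i = -∏ i, M (τ i) i := by
      rw [Units.neg_smul, one_smul]
    rw [this]
    exact h1.neg

end Pool.Agent.L7h11.RS
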