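import Mathlib
import Pool.Agent.Y722.LS.Gen

/-!
# Moments of the number of the points of a random section

`F k x` are vectors over `𝔽_p`, for `x` in a finite set `U`; the point `x` lies on the section with the
coefficients `c` if `∑ i, c ⟨k, i⟩ F k x i = 0` for all `k`.
-/

set_option autoImplicit false

namespace Pool.Agent.L7h11.RS

open Finset Pool.Agent.Y722.HS Pool.Agent.Y722.LS

section prod
variable {κ : Type} [Fintype κ] [DecidableEq κ] {ι : κ → Type} [∀ k, Fintype (ι k)]
  [∀ k, DecidableEq (ι k)] (p : ℕ) [NeZero p]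

/-- independence of the parts of the vector of the coefficients -/
theorem EM_prod (φ : ∀ k, (ι k → ZMod p) → ℝ) :
    EM p (fun c : (Σ k, ι k) → ZMod p => ∏ k, φ k (fun i => c ⟨k, i⟩)) = ∏ k, EM p (φ k) := by
  classical
  unfold EM
  rw [Finset.prod_div_distrib]
  congr 1
  · rw [Finset.prod_univ_sum, Fintype.piFinset_univ]
    refine Fintype.sum_equiv (Equiv.piCurry (fun (k : κ) (_ : ι k) => ZMod p)) _ _ fun c => ?_
    rfl
  · rw [Fintype.card_sigma, Finset.prod_pow_eq_pow_sum]

end prod

section one
variable {ι : Type} [Fintype ι] [DecidableEq ι] {p : ℕ} [Fact p.Prime]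

/-- the value of the linear form -/
def dotp (d v : ι → ZMod p) : ZMod p := ∑ i, d i * v i

open Classical in
/-- the indicator -/
noncomputable def ind (v : ι → ZMod p) (d : ι → ZMod p) : ℝ := if dotp d v = 0 then 1 else 0

open Classical in
/-- the probability that a random linear form vanishes at `v` -/
noncomputable def pv (v : ι → ZMod p) : ℝ := if v = 0 then 1 else 1 / p

theorem ind_zero_or (v d : ι → ZMod p) : ind v d = 0 ∨ ind v d = 1 := by
  unfold ind
  split_ifs <;> simp

theorem ind_nonneg (v d : ι → ZMod p) : 0 ≤ ind v d := by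
  rcases ind_zero_or v d with h | h <;> rw [h] <;> norm_num

theorem ind_le_one (v d : ι → ZMod p) : ind v d ≤ 1 := by
  rcases ind_zero_or v d with h | h <;> rw [h] <;> norm_num

theorem pv_nonneg (v : ι → ZMod p) : 0 ≤ pv v := by
  unfold pv
  split_ifs <;> positivity

theorem EM_ind (v : ι → ZMod p) : EM p (fun d => ind v d) = pv v := by
  classical
  have hp0 : (0 : ℝ) < p := by exact_mod_cast (Fact.out : p.Prime).pos
  by_cases hv : v = 0
  · have h1 : (fun d : ι → ZMod p => ind v d) = fun _ => 1 := by
      funext d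
      unfold ind dotp
      rw [hv]
      simp
    rw [h1, EM_const, pv, if_pos hv]
  · obtain ⟨i, hi⟩ : ∃ i, v i ≠ 0 := by
      by_contra h
      push Not at h
      exact hv (funext h)
    set g : (ι → ZMod p) →+ ZMod p :=
      { toFun := fun d => dotp d v
        map_zero' := by simp [dotp]
        map_add' := fun a b => by simp [dotp, add_mul, Finset.sum_add_distrib] } with hg
    have hs : Function.Surjective g := by
      intro t
      refine ⟨Pi.single i (t / v i), ?_⟩
      change dotp (Pi.single i (t / v i)) v = t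
      unfold dotp
      rw [Finset.sum_eq_single i]
      · rw [Pi.single_eq_same]
        field_simp
      · intro b _ hb
        simp [hb]
      · intro h
        exact absurd (Finset.mem_univ _) h
    have h1 := card_ker g hs
    have h2 : Nat.card {c // g c = 0} = (univ.filter (fun d : ι → ZMod p => dotp d v = 0)).card := by
      rw [Nat.card_eq_fintype_card, Fintype.card_subtype]
      rfl
    rw [h2] at h1
    simp only [Nat.card_zmod, Nat.card_eq_fintype_card (α := ι → ZMod p), Fintype.card_fun,
      ZMod.card] at h1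
    rw [pv, if_neg hv]
    unfold EM ind
    rw [← Finset.sum_filter, Finset.sum_const, nsmul_eq_mul, mul_one, div_eq_div_iff
      (by positivity) hp0.ne', one_mul]
    exact_mod_cast h1

/-- the two vectors are proportional, and not zero -/
def Dep (v w : ι → ZMod p) : Prop := v ≠ 0 ∧ w ≠ 0 ∧ ∀ i j, v i * w j = v j * w i

theorem EM_ind_two {v w : ι → ZMod p} (h : ¬ Dep v w) :
    EM p (fun d => ind v d * ind w d) = pv v * pv w := by
  classical
  have hp0 : (0 : ℝ) < p := by exact_mod_cast (Fact.out : p.Prime).pos
  by_cases hv : v = 0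
  · have h1 : (fun d : ι → ZMod p => ind v d * ind w d) = fun d => ind w d := by
      funext d
      have : ind v d = 1 := by
        unfold ind dotp
        rw [hv]
        simp
      rw [this, one_mul]
    rw [h1, EM_ind, pv, pv, if_pos hv, one_mul]
  by_cases hw : w = 0
  · have h1 : (fun d : ι → ZMod p => ind v d * ind w d) = fun d => ind v d := by
      funext d
      have : ind w d = 1 := by
        unfold ind dotp
        rw [hw]
        simp
      rw [this, mul_one]
    rw [h1, EM_ind, pv, pv, if_pos hw, mul_one]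
  obtain ⟨i, j, hij⟩ : ∃ i j, v i * w j ≠ v j * w i := by
    by_contra h2
    push Not at h2
    exact h ⟨hv, hw, h2⟩
  have hne : i ≠ j := by
    rintro rfl
    exact hij rfl
  have hD : v i * w j - v j * w i ≠ 0 := sub_ne_zero.mpr hij
  set g : (ι → ZMod p) →+ ZMod p × ZMod p :=
    { toFun := fun d => (dotp d v, dotp d w)
      map_zero' := by simp [dotp]
      map_add' := fun a b => by simp [dotp, add_mul, Finset.sum_add_distrib] } with hg
  have key : ∀ (a b : ZMod p) (u : ι → ZMod p),
      dotp (Pi.single i a + Pi.single j b) u = a * u i + b * u j := by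
    intro a b u
    unfold dotp
    simp only [Pi.add_apply, add_mul, Finset.sum_add_distrib]
    congr 1
    · rw [Finset.sum_eq_single i]
      · rw [Pi.single_eq_same]
      · intro k _ hk
        simp [hk]
      · intro h
        exact absurd (Finset.mem_univ _) h
    · rw [Finset.sum_eq_single j]
      · rw [Pi.single_eq_same]
      · intro k _ hk
        simp [hk]
      · intro h
        exact absurd (Finset.mem_univ _) h
  have hs : Function.Surjective g := by
    rintro ⟨s, t⟩
    refine ⟨Pi.single i ((s * w j - t * v j) / (v i * w j - v j * w i)) +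
      Pi.single j ((t * v i - s * w i) / (v i * w j - v j * w i)), ?_⟩
    change (dotp _ v, dotp _ w) = (s, t)
    rw [key, key, Prod.mk.injEq]
    constructor
    · rw [div_mul_eq_mul_div, div_mul_eq_mul_div, ← add_div, div_eq_iff hD]
      ring
    · rw [div_mul_eq_mul_div, div_mul_eq_mul_div, ← add_div, div_eq_iff hD]
      ring
  have h1 := card_ker g hs
  have h2 : Nat.card {c // g c = 0} =
      (univ.filter (fun d : ι → ZMod p => dotp d v = 0 ∧ dotp d w = 0)).card := by
    rw [Nat.card_eq_fintype_card, Fintype.card_subtype]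
    congr 1
    ext d
    simp only [Finset.mem_filter, Finset.mem_univ, true_and]
    change (dotp d v, dotp d w) = (0, 0) ↔ _
    rw [Prod.mk.injEq]
  rw [h2, Nat.card_prod] at h1
  simp only [Nat.card_zmod, Nat.card_eq_fintype_card (α := ι → ZMod p), Fintype.card_fun,
    ZMod.card] at h1
  rw [pv, pv, if_neg hv, if_neg hw]
  have h3 : (fun d : ι → ZMod p => ind v d * ind w d) =
      fun d => if dotp d v = 0 ∧ dotp d w = 0 then (1 : ℝ) else 0 := by
    funext d
    unfold ind
    by_cases h3 : dotp d v = 0 <;> by_cases h4 : dotp d w = 0 <;> simp [h3, h4]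
  rw [h3]
  unfold EM
  rw [← Finset.sum_filter, Finset.sum_const, nsmul_eq_mul, mul_one, div_mul_div_comm, one_mul,
    div_eq_div_iff (by positivity) (by positivity), one_mul]
  exact_mod_cast h1

end one

section main
variable {κ : Type} [Fintype κ] [DecidableEq κ] {ι : κ → Type} [∀ k, Fintype (ι k)]
  [∀ k, DecidableEq (ι k)] {p : ℕ} [Fact p.Prime] {X : Type} (F : ∀ k, X → ι k → ZMod p)
  (U : Finset X)

/-- the indicator of the section at the point `x` -/
noncomputable def hit (x : X) (c : (Σ k, ι k) → ZMod p) : ℝ :=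
  ∏ k, ind (F k x) (fun i => c ⟨k, i⟩)

/-- the probability that a random section contains `x` -/
noncomputable def pr (x : X) : ℝ := ∏ k, pv (F k x)

/-- the number of the points on the section -/
noncomputable def cnt (c : (Σ k, ι k) → ZMod p) : ℝ := ∑ x ∈ U, hit F x c

/-- the mean of the number of the points -/
noncomputable def mu : ℝ := ∑ x ∈ U, pr F x

variable {F U}

theorem hit_nonneg (x : X) (c : (Σ k, ι k) → ZMod p) : 0 ≤ hit F x c :=
  Finset.prod_nonneg fun _ _ => ind_nonneg _ _

theorem hit_le_one (x : X) (c : (Σ k, ι k) → ZMod p) : hit F x c ≤ 1 :=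
  Finset.prod_le_one (fun _ _ => ind_nonneg _ _) fun _ _ => ind_le_one _ _

theorem pr_nonneg (x : X) : 0 ≤ pr F x := Finset.prod_nonneg fun _ _ => pv_nonneg _

theorem EM_hit (x : X) : EM p (fun c => hit F x c) = pr F x := by
  unfold hit pr
  rw [EM_prod]
  exact Finset.prod_congr rfl fun k _ => EM_ind _

theorem EM_hit_two {x y : X} (h : ∀ k, ¬ Dep (F k x) (F k y)) :
    EM p (fun c => hit F x c * hit F y c) = pr F x * pr F y := by
  unfold hit pr
  simp only [← Finset.prod_mul_distrib]
  rw [EM_prod p (fun k d => ind (F k x) d * ind (F k y) d)]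
  exact Finset.prod_congr rfl fun k _ => EM_ind_two (h k)

theorem EM_fsum {κ' : Type*} (s : Finset κ') (f : κ' → ((Σ k, ι k) → ZMod p) → ℝ) :
    EM p (fun c => ∑ k ∈ s, f k c) = ∑ k ∈ s, EM p (f k) := by
  simp only [EM]
  rw [Finset.sum_comm, Finset.sum_div]

/-- **the mean** -/
theorem EM_cnt : EM p (fun c => cnt F U c) = mu F U := by
  unfold cnt mu
  rw [EM_fsum]
  exact Finset.sum_congr rfl fun x _ => EM_hit x

open Classical in
/-- **the variance** -/
theorem EM_var :
    EM p (fun c => (cnt F U c - mu F U) ^ 2) ≤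
      ∑ x ∈ U, ∑ y ∈ U, if ∃ k, Dep (F k x) (F k y) then pr F x else 0 := by
  have h1 : (fun c : (Σ k, ι k) → ZMod p => (cnt F U c - mu F U) ^ 2) =
      fun c => ∑ x ∈ U, ∑ y ∈ U, (hit F x c * hit F y c) +
        ((-(2 * mu F U)) * cnt F U c + mu F U ^ 2) := by
    funext c
    have : ∑ x ∈ U, ∑ y ∈ U, (hit F x c * hit F y c) = cnt F U c * cnt F U c := by
      unfold cnt
      rw [Finset.sum_mul_sum]
    rw [this]
    ring
  rw [h1, EM_add, EM_add, EM_mul, EM_const, EM_cnt, EM_fsum]
  simp only [EM_fsum]
  have h2 : ∀ x ∈ U, ∑ y ∈ U, EM p (fun c => hit F x c * hit F y c) ≤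
      pr F x * mu F U + ∑ y ∈ U, if ∃ k, Dep (F k x) (F k y) then pr F x else 0 := by
    intro x hx
    have h3 : pr F x * mu F U = ∑ y ∈ U, pr F x * pr F y := by
      unfold mu
      rw [Finset.mul_sum]
    rw [h3, ← Finset.sum_add_distrib]
    refine Finset.sum_le_sum fun y _ => ?_
    split_ifs with h
    · have h4 : EM p (fun c => hit F x c * hit F y c) ≤ pr F x := by
        rw [← EM_hit x]
        apply EM_mono
        intro c
        exact mul_le_of_le_one_right (hit_nonneg x c) (hit_le_one y c)
      have h5 : 0 ≤ pr F x * pr F y := mul_nonneg (pr_nonneg x) (pr_nonneg y)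
      linarith
    · push Not at h
      rw [EM_hit_two h, add_zero]
  have h8 := Finset.sum_le_sum h2
  have h9 : ∑ x ∈ U, (pr F x * mu F U +
      ∑ y ∈ U, if ∃ k, Dep (F k x) (F k y) then pr F x else 0) =
      mu F U * mu F U + ∑ x ∈ U, ∑ y ∈ U, if ∃ k, Dep (F k x) (F k y) then pr F x else 0 := by
    rw [Finset.sum_add_distrib, ← Finset.sum_mul]
    rfl
  rw [h9] at h8
  nlinarith

end main

end Pool.Agent.L7h11.RS
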