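import Mathlib
import Pool.Agent.L7h11.RS.Elim
import Pool.Agent.L7h11.RS.Mom

/-!
# Complete intersections in a projective variety: definitions

`Y ⊆ ℙ^n` is given by the forms `g a`, and `X_c ⊆ Y` by the further forms `F_k = ∑ i, c ⟨k, i⟩ f k i`, `k < r`.
-/

set_option autoImplicit false

namespace Pool.Agent.L7h11.RS

open Finset Pool.Agent.Y722.HS Pool.Agent.Y722.LS

variable {n s r : ℕ} {ι : Fin r → Type} [∀ k, Fintype (ι k)] [∀ k, DecidableEq (ι k)]

/-- The equations of `X_c`: those of `Y` and the forms `∑ i, c ⟨k, i⟩ f k i`. -/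
noncomputable def eqs (g : Fin s → MvPolynomial (Fin (n + 1)) ℤ)
    (f : ∀ k, ι k → MvPolynomial (Fin (n + 1)) ℤ) {R : Type*} [CommRing R] (c : (Σ k, ι k) → R) :
    Fin s ⊕ Fin r → MvPolynomial (Fin (n + 1)) R :=
  Sum.elim (fun a => MvPolynomial.map (Int.castRingHom R) (g a))
    (fun k => lform (f k) (fun i => c ⟨k, i⟩))

/-- The forms `E a` over the field `K` satisfy the Jacobian criterion in codimension `q`: at every common zero
in the projective space the matrix of the derivatives has the rank at least `q`. -/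
def IsSmoothAt {K : Type*} [Field K] {κ : Type*} (E : κ → MvPolynomial (Fin (n + 1)) K) (q : ℕ) : Prop :=
  ∀ x : Fin (n + 1) → K, x ≠ 0 → (∀ a, MvPolynomial.eval x (E a) = 0) →
    ∃ (u : Fin q → κ) (v : Fin q → Fin (n + 1)),
      (Matrix.of fun i j => MvPolynomial.eval x (MvPolynomial.pderiv (v j) (E (u i)))).det ≠ 0

/-- `x` is a zero of the equations of `Y`. -/
def OnY (g : Fin s → MvPolynomial (Fin (n + 1)) ℤ) (p : ℕ) (x : Fin (n + 1) → ZMod p) : Prop :=
  ∀ a, MvPolynomial.aeval x (g a) = 0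

/-- The number of the nonzero vectors over `𝔽_p` on the cone over `Y`, `(p - 1) #Y(𝔽_p)`. -/
noncomputable def coneY (g : Fin s → MvPolynomial (Fin (n + 1)) ℤ) (p : ℕ) : ℕ :=
  Nat.card {x : Fin (n + 1) → ZMod p // x ≠ 0 ∧ OnY g p x}

/-- The number of the nonzero vectors over `𝔽_p` on the cone over `X_c`, `(p - 1) #X_c(𝔽_p)`. -/
noncomputable def coneX (g : Fin s → MvPolynomial (Fin (n + 1)) ℤ)
    (f : ∀ k, ι k → MvPolynomial (Fin (n + 1)) ℤ) (p : ℕ) (c : (Σ k, ι k) → ZMod p) : ℕ :=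
  Nat.card {x : Fin (n + 1) → ZMod p // x ≠ 0 ∧ OnY g p x ∧
    ∀ k, ∑ i, c ⟨k, i⟩ * MvPolynomial.aeval x (f k i) = 0}

/-- The average of `coneX` over all the vectors `c` modulo `p`. -/
noncomputable def meanX (g : Fin s → MvPolynomial (Fin (n + 1)) ℤ)
    (f : ∀ k, ι k → MvPolynomial (Fin (n + 1)) ℤ) (p : ℕ) [NeZero p] : ℝ :=
  (∑ c : (Σ k, ι k) → ZMod p, (coneX g f p c : ℝ)) / (p : ℝ) ^ Fintype.card (Σ k, ι k)

/-- The points `x` and `y` are not in the base locus of one of the linear systems and have the same image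
under the map given by this system. -/
def SameImage (f : ∀ k, ι k → MvPolynomial (Fin (n + 1)) ℤ) (p : ℕ) (x y : Fin (n + 1) → ZMod p) : Prop :=
  ∃ k, (∃ i, MvPolynomial.aeval x (f k i) ≠ 0) ∧ (∃ i, MvPolynomial.aeval y (f k i) ≠ 0) ∧
    ∀ i j, MvPolynomial.aeval x (f k i) * MvPolynomial.aeval y (f k j) =
      MvPolynomial.aeval x (f k j) * MvPolynomial.aeval y (f k i)

open Classical in
/-- The number of the linear systems with `x` outside of their base locus. -/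
noncomputable def outs (f : ∀ k, ι k → MvPolynomial (Fin (n + 1)) ℤ) (p : ℕ) (x : Fin (n + 1) → ZMod p) :
    ℕ := (univ.filter fun k : Fin r => ∃ i, MvPolynomial.aeval x (f k i) ≠ 0).card

open Classical in
/-- The pairs `(x, y)` of nonzero vectors on the cone over `Y` with the same image under one of the systems,
each counted with the weight `p ^ (-outs x)` (that is `p ^ (-r)` if there are no base points). -/
noncomputable def pairs (g : Fin s → MvPolynomial (Fin (n + 1)) ℤ)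
    (f : ∀ k, ι k → MvPolynomial (Fin (n + 1)) ℤ) (p : ℕ) [NeZero p] : ℝ :=
  ∑ x : Fin (n + 1) → ZMod p, ∑ y : Fin (n + 1) → ZMod p,
    if (x ≠ 0 ∧ OnY g p x) ∧ (y ≠ 0 ∧ OnY g p y) ∧ SameImage f p x y then
      1 / (p : ℝ) ^ outs f p x else 0

/-- The multisets `β p k` are the eigenvalues of the geometric Frobenius on the cohomology `H^k`, `k ≤ 2 D`, of a
smooth projective variety of dimension `D` over `𝔽_p`, `p ≥ p₀`, the reduction of `Y` (Lefschetz formula for the number of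
points, weights, hard Lefschetz), and `α₀ p j` those on `H^{2m}`; for the other primes, the numbers `α₀ p j`
are of absolute value at most `p^m` (inertia invariants, zeros added if necessary). -/
structure IsCohomology (g : Fin s → MvPolynomial (Fin (n + 1)) ℤ) (m D p₀ : ℕ) (b : ℕ → ℕ)
    (β : ℕ → ℕ → Multiset ℂ) {b₀ : ℕ} (α₀ : ℕ → Fin b₀ → ℂ) : Prop where
  card : ∀ p : ℕ, p.Prime → p₀ ≤ p → ∀ k ≤ 2 * D, (β p k).card = b k
  weight : ∀ p : ℕ, p.Prime → p₀ ≤ p → ∀ k ≤ 2 * D, ∀ z ∈ β p k, ‖z‖ = (p : ℝ) ^ ((k : ℝ) / 2)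
  count : ∀ p : ℕ, p.Prime → p₀ ≤ p →
    (coneY g p : ℂ) = ((p : ℂ) - 1) * ∑ k ∈ range (2 * D + 1), (-1) ^ k * (β p k).sum
  lefschetz : ∀ p : ℕ, p.Prime → p₀ ≤ p → ∀ k ≤ D,
    β p (2 * D - k) = (β p k).map (fun z => (p : ℂ) ^ (D - k) * z)
  middle : ∀ p : ℕ, p.Prime → p₀ ≤ p → β p (2 * m) = (Finset.univ.val).map (α₀ p)
  bound : ∀ p : ℕ, p.Prime → ∀ j, ‖α₀ p j‖ ≤ (p : ℝ) ^ m

/-- The numbers `α p j`, `j < b`, are the eigenvalues of the geometric Frobenius on the inertia invariants of the middle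
cohomology `H^{2m}` of `X_c`, `dim X_c = 2 m`, zeros added if necessary: they are of absolute value at most `p^m`, and
if `p ≥ p₀` and `X_c` is smooth of dimension `2 m` modulo `p`, then the Lefschetz formula holds, where the cohomology of
the degrees `k ≠ 2 m` comes from `Y`: `H^k(X_c) = H^k(Y)` for `k < 2 m`, and `H^k(X_c) = H^{k + 2r}(Y)(r)` for
`k > 2 m` (weak Lefschetz). -/
structure IsFrobeniusSection (g : Fin s → MvPolynomial (Fin (n + 1)) ℤ)
    (f : ∀ k, ι k → MvPolynomial (Fin (n + 1)) ℤ) (m p₀ : ℕ) (β : ℕ → ℕ → Multiset ℂ) (b : ℕ)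
    (c : (Σ k, ι k) → ℤ) (α : ℕ → Fin b → ℂ) : Prop where
  bound : ∀ p : ℕ, p.Prime → ∀ j, ‖α p j‖ ≤ (p : ℝ) ^ m
  count : ∀ (p : ℕ) [Fact p.Prime], p₀ ≤ p →
    IsSmoothAt (eqs g f (R := AlgebraicClosure (ZMod p)) (fun i => (c i : AlgebraicClosure (ZMod p))))
      (n - 2 * m) →
      (coneX g f p (red p c) : ℂ) = ((p : ℂ) - 1) * (∑ k ∈ range (2 * m), (-1) ^ k * (β p k).sum +
        ∑ j, α p j + ∑ k ∈ Ico (2 * m + 1) (4 * m + 1), (-1) ^ k * ((β p (k + 2 * r)).sum / (p : ℂ) ^ r))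

/-- The monomials of degree `d` in the variables `x_0, …, x_n`. -/
noncomputable def mons (n d : ℕ) (ν : Mon n d) : MvPolynomial (Fin (n + 1)) ℤ :=
  ∏ i, MvPolynomial.X i ^ (ν.1 i : ℕ)

/-- The eigenvalues of the Frobenius on the cohomology of the projective space: `p ^ (k / 2)` for even `k`. -/
noncomputable def projCoh (p k : ℕ) : Multiset ℂ := if Even k then {(p : ℂ) ^ (k / 2)} else 0

/-- The L-functions of the middle cohomology of the complete intersections `X_c`, `c` in the box of the vectors with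
integer coordinates of absolute value at most `H`, behave near the line `Re s = m + 1` like the L-function of
`H^{2m}(Y)` (with the eigenvalues `α₀`) times `ζ(s - m) ^ e`: (1) mean square of the error, at points which may
depend on the member; (2) the error in the whole rectangle for all members outside of an exceptional set of
proportion `δ`. The constant depends neither on `H` nor on `T`. -/
def NearLine {n s r : ℕ} {ι : Fin r → Type} [∀ k, Fintype (ι k)] [∀ k, DecidableEq (ι k)]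
    (g : Fin s → MvPolynomial (Fin (n + 1)) ℤ) (f : ∀ k, ι k → MvPolynomial (Fin (n + 1)) ℤ)
    (m p₀ : ℕ) (β : ℕ → ℕ → Multiset ℂ) {b₀ : ℕ} (α₀ : ℕ → Fin b₀ → ℂ) (b : ℕ) (e : ℝ) : Prop :=
  ∃ C : ℝ, 0 < C ∧ ∀ H : ℕ, 2 ≤ H → ∀ T : ℝ, 0 ≤ T →
    (∀ S ⊆ box (Σ k, ι k) H, ∀ (α : ((Σ k, ι k) → ℤ) → ℕ → Fin b → ℂ) (ε τ : ((Σ k, ι k) → ℤ) → ℝ),
      (∀ c ∈ S, IsFrobeniusSection g f m p₀ β b c (α c)) →
      (∀ c ∈ S, 1 / Real.log H ≤ ε c ∧ ε c ≤ 1 ∧ |τ c| ≤ T) →
      ∑ c ∈ S, (Real.log ‖LP (α c) (m + 1 + ε c + τ c * Complex.I)‖ -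
        (Real.log ‖LP α₀ (m + 1 + ε c + τ c * Complex.I)‖ +
          e * Real.log ‖riemannZeta (1 + ε c + τ c * Complex.I)‖)) ^ 2 ≤
          C * (1 + T) * (box (Σ k, ι k) H).card) ∧
    (∀ δ : ℝ, 0 < δ → ∃ E ⊆ box (Σ k, ι k) H, (E.card : ℝ) ≤ δ * (box (Σ k, ι k) H).card ∧
      ∀ c ∈ box (Σ k, ι k) H \ E, ∀ α : ℕ → Fin b → ℂ, IsFrobeniusSection g f m p₀ β b c α →
        ∀ ε τ : ℝ, 1 / Real.log H ≤ ε → ε ≤ 1 → |τ| ≤ T →
        LP α (m + 1 + ε + τ * Complex.I) ≠ 0 ∧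
        |Real.log ‖LP α (m + 1 + ε + τ * Complex.I)‖ -
          (Real.log ‖LP α₀ (m + 1 + ε + τ * Complex.I)‖ +
            e * Real.log ‖riemannZeta (1 + ε + τ * Complex.I)‖)| ≤ Real.sqrt (C * (1 + T) / δ))

end Pool.Agent.L7h11.RS
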