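import Mathlib
import Pool.Agent.L7h11.RS.Defs
import Pool.Agent.Y722.HS.LSum

/-!
# Products of a fixed variety and a complete intersection curve: definitions
-/

set_option autoImplicit false

namespace Pool.Agent.L7h11.RS

open Finset Pool.Agent.Y722.HS Pool.Agent.Y722.LS

variable {n s r : ℕ} {ι : Fin r → Type} [∀ k, Fintype (ι k)] [∀ k, DecidableEq (ι k)]

/-- The numbers `α p j`, `j < b`, are the eigenvalues of the geometric Frobenius on the inertia invariants of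
`H²(Y × Z_c)`, zeros added if necessary, where `Z_c ⊆ W` is a complete intersection curve: they are of absolute
value at most `p`, and if `p ≥ p₀` and `Z_c` is smooth of dimension `1` modulo `p`, then their sum is the trace given by
the Künneth formula `H²(Y × Z) = H²(Y) ⊕ H¹(Y) ⊗ H¹(Z) ⊕ H²(Z)`, where `t p` is the trace on `H¹(Y)`, the numbers
`δ p j` are the eigenvalues on `H²(Y)`, and the trace on `H¹(Z_c)` is `p + 1 - #Z_c(𝔽_p)`. -/
structure IsFrobeniusProduct (g : Fin s → MvPolynomial (Fin (n + 1)) ℤ)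
    (f : ∀ k, ι k → MvPolynomial (Fin (n + 1)) ℤ) (p₀ : ℕ) (t : ℕ → ℤ) {b₂ : ℕ} (δ : ℕ → Fin b₂ → ℂ)
    (b : ℕ) (c : (Σ k, ι k) → ℤ) (α : ℕ → Fin b → ℂ) : Prop where
  bound : ∀ p : ℕ, p.Prime → ∀ j, ‖α p j‖ ≤ (p : ℝ)
  count : ∀ (p : ℕ) [Fact p.Prime], p₀ ≤ p →
    IsSmoothAt (eqs g f (R := AlgebraicClosure (ZMod p)) (fun i => (c i : AlgebraicClosure (ZMod p))))
      (n - 1) →
      ∑ j, α p j = ∑ j, δ p j +
        (t p : ℂ) * ((p : ℂ) + 1 - (coneX g f p (red p c) : ℂ) / ((p : ℂ) - 1)) + (p : ℂ)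

/-- The numbers `ω p j` are the eigenvalues on `H¹(Y) ⊗ H¹(W)` for `p ≥ p₀`, the products of an eigenvalue in `β p 1` and
an eigenvalue in `β' p 1`, and of absolute value at most `p` for the other primes. -/
structure IsTensor (p₀ : ℕ) (β β' : ℕ → ℕ → Multiset ℂ) {b' : ℕ} (ω : ℕ → Fin b' → ℂ) : Prop where
  eq : ∀ p : ℕ, p.Prime → p₀ ≤ p →
    (Finset.univ.val).map (ω p) = (β p 1 ×ˢ β' p 1).map (fun z => z.1 * z.2)
  bound : ∀ p : ℕ, p.Prime → ∀ j, ‖ω p j‖ ≤ (p : ℝ)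

/-- The L-functions of `H²(Y × Z_c)`, `c` in the box of the vectors with integer coordinates of absolute value at
most `H`, behave near the line `Re s = 2` like `L(H²(Y), s) L(H¹(Y) ⊗ H¹(W), s) ζ(s - 1)` (the eigenvalues of the
first two are `δ` and `ω`): (1) mean square of the error, at points which may depend on `c`; (2) the error in the whole
rectangle for all `c` outside of an exceptional set of proportion `η`. The constant depends neither on `H` nor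
on `T`. -/
def NearProduct (g : Fin s → MvPolynomial (Fin (n + 1)) ℤ) (f : ∀ k, ι k → MvPolynomial (Fin (n + 1)) ℤ)
    (p₀ : ℕ) (t : ℕ → ℤ) {b₂ b₁' : ℕ} (δ : ℕ → Fin b₂ → ℂ) (ω : ℕ → Fin b₁' → ℂ) (b : ℕ) : Prop :=
  ∃ C : ℝ, 0 < C ∧ ∀ H : ℕ, 2 ≤ H → ∀ T : ℝ, 0 ≤ T →
    (∀ S ⊆ box (Σ k, ι k) H, ∀ (α : ((Σ k, ι k) → ℤ) → ℕ → Fin b → ℂ) (ε τ : ((Σ k, ι k) → ℤ) → ℝ),
      (∀ c ∈ S, IsFrobeniusProduct g f p₀ t δ b c (α c)) →
      (∀ c ∈ S, 1 / Real.log H ≤ ε c ∧ ε c ≤ 1 ∧ |τ c| ≤ T) →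
      ∑ c ∈ S, (Real.log ‖LP (α c) (2 + ε c + τ c * Complex.I)‖ -
        (Real.log ‖LP δ (2 + ε c + τ c * Complex.I)‖ + Real.log ‖LP ω (2 + ε c + τ c * Complex.I)‖ +
          Real.log ‖riemannZeta (1 + ε c + τ c * Complex.I)‖)) ^ 2 ≤
          C * (1 + T) * (box (Σ k, ι k) H).card) ∧
    (∀ η : ℝ, 0 < η → ∃ E ⊆ box (Σ k, ι k) H, (E.card : ℝ) ≤ η * (box (Σ k, ι k) H).card ∧
      ∀ c ∈ box (Σ k, ι k) H \ E, ∀ α : ℕ → Fin b → ℂ, IsFrobeniusProduct g f p₀ t δ b c α →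
        ∀ ε τ : ℝ, 1 / Real.log H ≤ ε → ε ≤ 1 → |τ| ≤ T →
        LP α (2 + ε + τ * Complex.I) ≠ 0 ∧
        |Real.log ‖LP α (2 + ε + τ * Complex.I)‖ -
          (Real.log ‖LP δ (2 + ε + τ * Complex.I)‖ + Real.log ‖LP ω (2 + ε + τ * Complex.I)‖ +
            Real.log ‖riemannZeta (1 + ε + τ * Complex.I)‖)| ≤ Real.sqrt (C * (1 + T) / η))

end Pool.Agent.L7h11.RS
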