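import Mathlib
import Pool.Agent.L7h11.RS.Defs

/-!
# The discriminant of a family of complete intersections
-/

set_option autoImplicit false

namespace Pool.Agent.L7h11.RS

open Finset Pool.Agent.Y722.HS Pool.Agent.Y722.LS

variable {n s r : ℕ} {ι : Fin r → Type} [∀ k, Fintype (ι k)] [∀ k, DecidableEq (ι k)]
  {g : Fin s → MvPolynomial (Fin (n + 1)) ℤ} {f : ∀ k, ι k → MvPolynomial (Fin (n + 1)) ℤ}

theorem map_lform' {ι' : Type} [Fintype ι'] (f : ι' → MvPolynomial (Fin (n + 1)) ℤ) {R S : Type*}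
    [CommRing R] [CommRing S] (φ : R →+* S) (c : ι' → R) :
    MvPolynomial.map φ (lform f c) = lform f (fun i => φ (c i)) := by
  unfold lform
  rw [map_sum]
  refine Finset.sum_congr rfl fun i _ => ?_
  rw [map_mul, MvPolynomial.map_C, MvPolynomial.map_map,
    RingHom.ext_int (φ.comp (Int.castRingHom R)) (Int.castRingHom S)]

theorem map_eqs {R S : Type*} [CommRing R] [CommRing S] (φ : R →+* S) (c : (Σ k, ι k) → R)
    (a : Fin s ⊕ Fin r) :
    MvPolynomial.map φ (eqs g f c a) = eqs g f (fun i => φ (c i)) a := by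
  rcases a with a | k
  · simp only [eqs, Sum.elim_inl]
    rw [MvPolynomial.map_map, RingHom.ext_int (φ.comp (Int.castRingHom R)) (Int.castRingHom S)]
  · simp only [eqs, Sum.elim_inr]
    rw [map_lform']

theorem eqs_hom {dg : Fin s → ℕ} {df : Fin r → ℕ} (hg : ∀ a, (g a).IsHomogeneous (dg a))
    (hf : ∀ k i, (f k i).IsHomogeneous (df k)) {R : Type*} [CommRing R] (c : (Σ k, ι k) → R)
    (a : Fin s ⊕ Fin r) : (eqs g f c a).IsHomogeneous (Sum.elim dg df a) := by
  rcases a with a | k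
  · exact (hg a).map _
  · refine MvPolynomial.IsHomogeneous.sum _ _ _ fun i _ => ?_
    have := (MvPolynomial.isHomogeneous_C (Fin (n + 1)) (c ⟨k, i⟩)).mul
      ((hf k i).map (Int.castRingHom R))
    rwa [zero_add] at this

/-- **The discriminant.** -/
theorem exists_disc {dg : Fin s → ℕ} {df : Fin r → ℕ} (hg : ∀ a, (g a).IsHomogeneous (dg a))
    (hf : ∀ k i, (f k i).IsHomogeneous (df k)) (q : ℕ) (c0 : (Σ k, ι k) → ℤ)
    (hs : IsSmoothAt (eqs g f (fun i => (c0 i : ℂ))) q) :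
    ∃ Δ : MvPolynomial (Σ k, ι k) ℤ, MvPolynomial.eval c0 Δ ≠ 0 ∧
      ∀ (K : Type) [Field K] (c : (Σ k, ι k) → K),
      MvPolynomial.eval₂ (Int.castRingHom K) c Δ ≠ 0 → IsSmoothAt (eqs g f c) q := by
  classical
  set E : Fin s ⊕ Fin r → MvPolynomial (Fin (n + 1)) (MvPolynomial (Σ k, ι k) ℤ) :=
    eqs g f (fun i => MvPolynomial.X i) with hE
  have hEh : ∀ a, (E a).IsHomogeneous (Sum.elim dg df a) := fun a => eqs_hom hg hf _ a
  have hEm : ∀ {R : Type} [CommRing R] (c : (Σ k, ι k) → R) (a),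
      MvPolynomial.map (sp c) (E a) = eqs g f c a := by
    intro R _ c a
    rw [hE, map_eqs]
    congr 1
    funext i
    simp [sp]
  set P : (Fin s ⊕ Fin r) ⊕ ((Fin q → Fin s ⊕ Fin r) × (Fin q → Fin (n + 1))) →
      MvPolynomial (Fin (n + 1)) (MvPolynomial (Σ k, ι k) ℤ) :=
    Sum.elim E (fun w => (Matrix.of fun i j => MvPolynomial.pderiv (w.2 j) (E (w.1 i))).det) with hP
  have h1 : ∀ {R : Type} [CommRing R] (c : (Σ k, ι k) → R) (x : Fin (n + 1) → R) (a),
      MvPolynomial.eval₂ (sp c) x (P (Sum.inl a)) = MvPolynomial.eval x (eqs g f c a) := by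
    intro R _ c x a
    rw [← hEm, MvPolynomial.eval_map]
    rfl
  have h2 : ∀ {R : Type} [CommRing R] (c : (Σ k, ι k) → R) (x : Fin (n + 1) → R)
      (w : (Fin q → Fin s ⊕ Fin r) × (Fin q → Fin (n + 1))),
      MvPolynomial.eval₂ (sp c) x (P (Sum.inr w)) =
        (Matrix.of fun i j => MvPolynomial.eval x
          (MvPolynomial.pderiv (w.2 j) (eqs g f c (w.1 i)))).det := by
    intro R _ c x w
    have h3 : MvPolynomial.eval₂ (sp c) x (P (Sum.inr w)) =
        (MvPolynomial.eval₂Hom (sp c) x) (P (Sum.inr w)) := rfl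
    rw [h3, hP, Sum.elim_inr, RingHom.map_det]
    congr 1
    ext i j
    rw [RingHom.mapMatrix_apply, Matrix.map_apply, Matrix.of_apply, Matrix.of_apply, ← hEm,
      MvPolynomial.pderiv_map, MvPolynomial.eval_map]
    rfl
  obtain ⟨Δ, hΔ0, hΔ⟩ := elim P (Sum.elim (Sum.elim dg df)
    (fun w => ∑ i, (Sum.elim dg df (w.1 i) - 1))) (by
      rintro (a | w)
      · exact hEh a
      · exact det_hom _ _ fun i j => (hEh (w.1 i)).pderiv) c0 (by
      intro x hx
      by_contra hx0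
      obtain ⟨u, v, huv⟩ := hs x hx0 fun a => by
        rw [← h1]
        exact hx _
      apply huv
      rw [← h2 _ x (u, v)]
      exact hx _)
  refine ⟨Δ, hΔ0, fun K _ c hc x hx0 hx => ?_⟩
  by_contra hcon
  push Not at hcon
  apply hx0
  refine hΔ K c hc x ?_
  rintro (a | w)
  · rw [h1]
    exact hx a
  · rw [h2]
    exact hcon w.1 w.2

end Pool.Agent.L7h11.RS
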