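import Mathlib
import Pool.Agent.L7h11.RS.Disc
import Pool.Agent.L7h11.RS.Abs

/-!
# The L-functions of random complete intersections in a fixed variety
-/

set_option autoImplicit false

namespace Pool.Agent.L7h11.RS

open Finset Pool.Agent.Y722.HS Pool.Agent.Y722.LS Pool.Agent.N534.TL

variable {n s r : ℕ} {ι : Fin r → Type} [∀ k, Fintype (ι k)] [∀ k, DecidableEq (ι k)]
  {g : Fin s → MvPolynomial (Fin (n + 1)) ℤ} {f : ∀ k, ι k → MvPolynomial (Fin (n + 1)) ℤ}

/-- the values of the linear systems -/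
noncomputable def FF (f : ∀ k, ι k → MvPolynomial (Fin (n + 1)) ℤ) (p : ℕ) (k : Fin r)
    (x : Fin (n + 1) → ZMod p) : ι k → ZMod p := fun i => MvPolynomial.aeval x (f k i)

open Classical in
/-- the nonzero vectors on the cone over `Y` -/
noncomputable def UU (g : Fin s → MvPolynomial (Fin (n + 1)) ℤ) (p : ℕ) [NeZero p] :
    Finset (Fin (n + 1) → ZMod p) := univ.filter fun x => x ≠ 0 ∧ OnY g p x

section
variable {p : ℕ} [Fact p.Prime]

theorem hit_eq (x : Fin (n + 1) → ZMod p) (c : (Σ k, ι k) → ZMod p) [Decidable (∀ k,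
    ∑ i, c ⟨k, i⟩ * MvPolynomial.aeval x (f k i) = 0)] :
    hit (FF f p) x c = if ∀ k, ∑ i, c ⟨k, i⟩ * MvPolynomial.aeval x (f k i) = 0 then 1 else 0 := by
  unfold hit
  split_ifs with h
  · refine Finset.prod_eq_one fun k _ => ?_
    unfold ind dotp FF
    rw [if_pos (h k)]
  · push Not at h
    obtain ⟨k, hk⟩ := h
    refine Finset.prod_eq_zero (Finset.mem_univ k) ?_
    unfold ind dotp FF
    rw [if_neg hk]

theorem cnt_eq (c : (Σ k, ι k) → ZMod p) : cnt (FF f p) (UU g p) c = coneX g f p c := by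
  classical
  unfold cnt coneX
  rw [Nat.card_eq_fintype_card, Fintype.card_subtype]
  simp only [hit_eq]
  rw [Finset.sum_boole, UU, Finset.filter_filter]
  congr 2
  ext x
  simp only [Finset.mem_filter, Finset.mem_univ, true_and, and_assoc]

theorem mu_eq : mu (FF f p) (UU g p) = meanX g f p := by
  rw [← EM_cnt]
  unfold EM meanX
  simp only [cnt_eq]

theorem pr_eq (x : Fin (n + 1) → ZMod p) : pr (FF f p) x = 1 / (p : ℝ) ^ outs f p x := by
  classical
  unfold pr outs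
  have h : ∀ k : Fin r, pv (FF f p k x) =
      if ∃ i, MvPolynomial.aeval x (f k i) ≠ 0 then 1 / (p : ℝ) else 1 := by
    intro k
    unfold pv
    by_cases h1 : FF f p k x = 0
    · rw [if_pos h1, if_neg]
      push Not
      exact fun i => congrFun h1 i
    · rw [if_neg h1, if_pos]
      exact Function.ne_iff.mp h1
  rw [Finset.prod_congr rfl fun k _ => h k, Finset.prod_ite, Finset.prod_const, Finset.prod_const_one,
    mul_one, one_div, one_div, inv_pow]

theorem dep_iff (x y : Fin (n + 1) → ZMod p) :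
    (∃ k, Dep (FF f p k x) (FF f p k y)) ↔ SameImage f p x y := by
  unfold Dep SameImage
  refine exists_congr fun k => ?_
  refine and_congr Function.ne_iff (and_congr Function.ne_iff Iff.rfl)

theorem var_le : EM p (fun c => (coneX g f p c - meanX g f p) ^ 2) ≤ pairs g f p := by
  classical
  have h := EM_var (F := FF f p) (U := UU g p)
  simp only [cnt_eq, mu_eq] at h
  refine h.trans (le_of_eq ?_)
  unfold pairs UU
  rw [Finset.sum_filter]
  refine Finset.sum_congr rfl fun x _ => ?_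
  by_cases h1 : x ≠ 0 ∧ OnY g p x
  · rw [if_pos h1, Finset.sum_filter]
    refine Finset.sum_congr rfl fun y _ => ?_
    by_cases h2 : y ≠ 0 ∧ OnY g p y
    · rw [if_pos h2]
      by_cases h3 : SameImage f p x y
      · rw [if_pos ((dep_iff x y).mpr h3), if_pos ⟨h1, h2, h3⟩, pr_eq]
      · rw [if_neg (fun h => h3 ((dep_iff x y).mp h)), if_neg (fun h => h3 h.2.2)]
    · rw [if_neg h2, if_neg (fun h => h2 h.2.1)]
  · rw [if_neg h1]
    symm
    exact Finset.sum_eq_zero fun y _ => if_neg fun h => h1 h.1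

end

open Classical in
/-- the normalised trace -/
noncomputable def NN (g : Fin s → MvPolynomial (Fin (n + 1)) ℤ)
    (f : ∀ k, ι k → MvPolynomial (Fin (n + 1)) ℤ) (m p0 : ℕ) (p : ℕ) (c : (Σ k, ι k) → ZMod p) : ℝ :=
  if h : p.Prime ∧ p0 ≤ p then
    (haveI : NeZero p := ⟨h.1.ne_zero⟩
     ((coneX g f p c - meanX g f p) / (((p : ℝ) - 1) * (p : ℝ) ^ (m + 1))))
  else 0

open Classical in
/-- The indicator of bad reduction. -/
noncomputable def BB {ι' : Type} [Fintype ι'] (P : MvPolynomial ι' ℤ) (p0 : ℕ) (p : ℕ)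
    (c : ι' → ZMod p) : ℝ :=
  if p < p0 ∨ MvPolynomial.eval₂ (Int.castRingHom (ZMod p)) c P = 0 then 1 else 0

theorem BB_zero_or {ι' : Type} [Fintype ι'] (P : MvPolynomial ι' ℤ) (p0 : ℕ) (p : ℕ)
    (c : ι' → ZMod p) : BB P p0 p c = 0 ∨ BB P p0 p c = 1 := by
  unfold BB
  split_ifs
  · right; rfl
  · left; rfl

theorem EM_BB {ι' : Type} [Fintype ι'] [DecidableEq ι'] (P : MvPolynomial ι' ℤ) (c0 : ι' → ℤ)
    (hP : MvPolynomial.eval c0 P ≠ 0) (p0 p : ℕ) [Fact p.Prime] :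
    EM p (fun c : ι' → ZMod p => BB P p0 p c) ≤
      (p0 + P.totalDegree + |(MvPolynomial.eval c0 P : ℝ)|) / p := by
  classical
  have hp := (Fact.out : p.Prime)
  have hp0 : (0 : ℝ) < p := by exact_mod_cast hp.pos
  have hp00 : (0 : ℝ) ≤ p0 := by positivity
  have hdeg0 : (0 : ℝ) ≤ P.totalDegree := by positivity
  have hev0 : (0 : ℝ) ≤ |(MvPolynomial.eval c0 P : ℝ)| := abs_nonneg _
  set A : ℝ := p0 + P.totalDegree + |(MvPolynomial.eval c0 P : ℝ)| with hA
  have hle1 : EM p (fun c : ι' → ZMod p => BB P p0 p c) ≤ 1 := by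
    rw [← EM_const (ι := ι') p 1]
    apply EM_mono
    intro c
    rcases BB_zero_or P p0 p c with h | h <;> rw [h] <;> norm_num
  have hsmall : (p : ℝ) ≤ A → EM p (fun c : ι' → ZMod p => BB P p0 p c) ≤ A / p := by
    intro h
    refine hle1.trans ?_
    rw [le_div_iff₀ hp0, one_mul]
    exact h
  by_cases hlt : p < p0
  · apply hsmall
    have : (p : ℝ) ≤ p0 := by exact_mod_cast hlt.le
    linarith
  · by_cases hdvd : (p : ℤ) ∣ MvPolynomial.eval c0 P
    · apply hsmall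
      have h1 : (p : ℤ) ≤ |MvPolynomial.eval c0 P| :=
        Int.le_of_dvd (abs_pos.mpr hP) ((dvd_abs _ _).mpr hdvd)
      have h2 : (p : ℝ) ≤ |(MvPolynomial.eval c0 P : ℝ)| := by exact_mod_cast h1
      linarith
    · have h1 := card_zeros P c0 p hdvd
      have h2 : ∑ c : ι' → ZMod p, BB P p0 p c = ((Nat.card {c : ι' → ZMod p //
          MvPolynomial.eval₂ (Int.castRingHom (ZMod p)) c P = 0} : ℕ) : ℝ) := by
        rw [Nat.card_eq_fintype_card, Fintype.card_subtype]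
        simp [BB, hlt]
      have hM : (0 : ℝ) < (p : ℝ) ^ Fintype.card ι' := by positivity
      unfold EM
      rw [h2, div_le_div_iff₀ hM hp0]
      refine h1.trans ?_
      gcongr
      linarith

/-- the family -/
theorem fam (P : MvPolynomial (Σ k, ι k) ℤ) (c0 : (Σ k, ι k) → ℤ) (hP : MvPolynomial.eval c0 P ≠ 0)
    (m p0 : ℕ) (M : ℝ) (hM0 : 0 ≤ M)
    (hM : ∀ (p : ℕ) [Fact p.Prime], p0 ≤ p → pairs g f p ≤ M * (p : ℝ) ^ (2 * m + 2)) :
    Fam (1 + 4 * M + (p0 + P.totalDegree + |(MvPolynomial.eval c0 P : ℝ)|))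
      (NN g f m p0) (BB P p0) := by
  classical
  have hp00 : (0 : ℝ) ≤ p0 := by positivity
  have hdeg0 : (0 : ℝ) ≤ P.totalDegree := by positivity
  have hev0 : (0 : ℝ) ≤ |(MvPolynomial.eval c0 P : ℝ)| := abs_nonneg _
  set A : ℝ := 1 + 4 * M + (p0 + P.totalDegree + |(MvPolynomial.eval c0 P : ℝ)|) with hA
  have hA0 : 0 ≤ A := by positivity
  refine ⟨by rw [hA]; nlinarith, ?_, ?_, ?_, ?_, ?_⟩
  · intro p hpF
    have hp := hpF.out
    have hp0 : (0 : ℝ) < p := by exact_mod_cast hp.pos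
    by_cases hlt : p.Prime ∧ p0 ≤ p
    · have hp2 : (2 : ℝ) ≤ p := by exact_mod_cast hp.two_le
      have hp1 : (0 : ℝ) < (p : ℝ) - 1 := by linarith
      have h1 : (fun c : (Σ k, ι k) → ZMod p => NN g f m p0 p c ^ 2) =
          fun c => (1 / (((p : ℝ) - 1) * (p : ℝ) ^ (m + 1)) ^ 2) *
            (coneX g f p c - meanX g f p) ^ 2 := by
        funext c
        rw [NN, dif_pos hlt, div_pow]
        ring
      rw [h1, EM_mul]
      have h2 := (var_le (g := g) (f := f) (p := p)).trans (hM p hlt.2)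
      have h3 : (p : ℝ) ^ 2 ≤ 4 * ((p : ℝ) - 1) ^ 2 := by nlinarith
      calc _ ≤ 1 / (((p : ℝ) - 1) * (p : ℝ) ^ (m + 1)) ^ 2 * (M * (p : ℝ) ^ (2 * m + 2)) := by
            gcongr
        _ = M / ((p : ℝ) - 1) ^ 2 := by
            field_simp
            ring
        _ ≤ 4 * M / (p : ℝ) ^ 2 := by
            rw [div_le_div_iff₀ (by positivity) (by positivity)]
            nlinarith
        _ ≤ A / (p : ℝ) ^ 2 := by
            gcongr
            linarith
    · have h1 : (fun c : (Σ k, ι k) → ZMod p => NN g f m p0 p c ^ 2) = fun _ => 0 := by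
        funext c; simp [NN, hlt]
      rw [h1, EM_const]
      positivity
  · intro p hpF
    have hp := hpF.out
    have hp0 : (0 : ℝ) < p := by exact_mod_cast hp.pos
    have h0 : EM p (fun c : (Σ k, ι k) → ZMod p => NN g f m p0 p c) = 0 := by
      by_cases hlt : p.Prime ∧ p0 ≤ p
      · have h1 : (fun c : (Σ k, ι k) → ZMod p => NN g f m p0 p c) =
            fun c => (1 / (((p : ℝ) - 1) * (p : ℝ) ^ (m + 1))) *
              (cnt (FF f p) (UU g p) c + -mu (FF f p) (UU g p)) := by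
          funext c
          rw [NN, dif_pos hlt, cnt_eq, mu_eq]
          ring
        rw [h1, EM_mul, EM_add, EM_cnt, EM_const, add_neg_cancel, mul_zero]
      · have h1 : (fun c : (Σ k, ι k) → ZMod p => NN g f m p0 p c) = fun _ => 0 := by
          funext c; simp [NN, hlt]
        rw [h1, EM_const]
    rw [h0, abs_zero]
    positivity
  · intro p c
    rcases BB_zero_or P p0 p c with h | h <;> rw [h]
    exact zero_le_one
  · intro p c
    rcases BB_zero_or P p0 p c with h | h <;> rw [h]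
    exact zero_le_one
  · intro p hpF
    have hp := hpF.out
    have hp0 : (0 : ℝ) < p := by exact_mod_cast hp.pos
    refine (EM_BB P c0 hP p0 p).trans ?_
    gcongr
    linarith

/-- the bound for a sum of eigenvalues -/
theorem sum_le' {S : Multiset ℂ} {b : ℕ} (hc : S.card = b) {x : ℝ} (h : ∀ z ∈ S, ‖z‖ ≤ x) :
    ‖S.sum‖ ≤ b * x := by
  have h1 : ‖S.sum‖ ≤ (S.map fun z => ‖z‖).sum := norm_multiset_sum_le S
  refine h1.trans ?_
  have h2 : (S.map fun z => ‖z‖).sum ≤ (S.map fun z => ‖z‖).card • x := by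
    apply Multiset.sum_le_card_nsmul
    intro y hy
    obtain ⟨z, hz, rfl⟩ := Multiset.mem_map.mp hy
    exact h z hz
  rwa [Multiset.card_map, hc, nsmul_eq_mul] at h2

/-- the comparison of the traces on the middle cohomology -/
theorem rel {m D p₀ b b₀ : ℕ} (hD : D = 2 * m + r) {bet : ℕ → ℕ} {β : ℕ → ℕ → Multiset ℂ}
    {α₀ : ℕ → Fin b₀ → ℂ} (hY : IsCohomology g m D p₀ bet β α₀)
    (P : MvPolynomial (Σ k, ι k) ℤ)
    (hP : ∀ (K : Type) [Field K] (c : (Σ k, ι k) → K),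
      MvPolynomial.eval₂ (Int.castRingHom K) c P ≠ 0 → IsSmoothAt (eqs g f c) (n - 2 * m))
    (e C₀ : ℝ) (hmean : ∀ (p : ℕ) [Fact p.Prime], p₀ ≤ p →
      |(meanX g f p - coneY g p / (p : ℝ) ^ r) / ((p : ℝ) - 1) - e * (p : ℝ) ^ m| ≤
        C₀ * (p : ℝ) ^ ((m : ℝ) - 1 / 2))
    {c : (Σ k, ι k) → ℤ} {α : ℕ → Fin b → ℂ} (h : IsFrobeniusSection g f m p₀ β b c α) :
    Rel (NN g f m p₀) (BB P p₀) m e (C₀ + 2 * ∑ k ∈ range (2 * D + 1), (bet k : ℝ)) α₀ c α := by
  classical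
  refine ⟨h.bound, fun p hp hB => ?_⟩
  have : Fact p.Prime := ⟨hp⟩
  have hp0 : (0 : ℝ) < p := by exact_mod_cast hp.pos
  have hp1 : (1 : ℝ) ≤ p := by exact_mod_cast hp.one_lt.le
  have hb : ¬ (p < p₀ ∨ MvPolynomial.eval₂ (Int.castRingHom (ZMod p)) (red p c) P = 0) := by
    intro h1
    apply hB
    unfold BB
    rw [if_pos h1]
  push Not at hb
  obtain ⟨hb1, hb2⟩ := hb
  have hpp : p₀ ≤ p := by omega
  have hsm : IsSmoothAt (eqs g f (R := AlgebraicClosure (ZMod p))
      (fun i => (c i : AlgebraicClosure (ZMod p)))) (n - 2 * m) := by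
    apply hP
    have h2 : MvPolynomial.eval₂ (Int.castRingHom (AlgebraicClosure (ZMod p)))
        (fun i => (c i : AlgebraicClosure (ZMod p))) P =
        algebraMap (ZMod p) (AlgebraicClosure (ZMod p))
          (MvPolynomial.eval₂ (Int.castRingHom (ZMod p)) (red p c) P) := by
      rw [MvPolynomial.eval₂_comp_left, RingHom.ext_int
        ((algebraMap (ZMod p) (AlgebraicClosure (ZMod p))).comp (Int.castRingHom (ZMod p)))
        (Int.castRingHom (AlgebraicClosure (ZMod p)))]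
      congr 1
      try (funext i; simp [red])
    rw [h2]
    intro h3
    exact hb2 ((map_eq_zero _).mp h3)
  have hX := h.count p hpp hsm
  have hYc := hY.count p hp hpp
  have hp1' : (p : ℝ) - 1 ≠ 0 := by
    have : (1 : ℝ) < p := by exact_mod_cast hp.one_lt
    linarith
  have hp1c : ((p : ℂ) - 1) ≠ 0 := by exact_mod_cast hp1'
  have hpc : (p : ℂ) ≠ 0 := by exact_mod_cast hp.ne_zero
  -- the middle term
  have hmid : (β p (2 * m + 2 * r)).sum = (p : ℂ) ^ r * ∑ j, α₀ p j := by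
    have h1 := hY.lefschetz p hp hpp (2 * m) (by omega)
    have e1 : 2 * D - 2 * m = 2 * m + 2 * r := by omega
    have e2 : D - 2 * m = r := by omega
    rw [e1, e2, hY.middle p hp hpp] at h1
    rw [h1, Multiset.sum_map_mul_left, Multiset.map_id']
    rfl
  -- the sum for `Y`
  set t : ℕ → ℂ := fun k => (-1) ^ k * (β p k).sum with ht
  have hsplit : ∑ k ∈ range (2 * D + 1), t k = ∑ k ∈ range (2 * m + 2 * r), t k +
      t (2 * m + 2 * r) + ∑ k ∈ Ico (2 * m + 1) (4 * m + 1), t (k + 2 * r) := by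
    rw [← Finset.sum_range_succ, Finset.sum_Ico_add' t (2 * m + 1) (4 * m + 1) (2 * r)]
    have e1 : 4 * m + 1 + 2 * r = 2 * D + 1 := by omega
    have e2 : 2 * m + 1 + 2 * r = 2 * m + 2 * r + 1 := by omega
    rw [e1, e2, Finset.range_eq_Ico, Finset.range_eq_Ico, Finset.sum_Ico_consecutive _ (by omega)
      (by omega)]
  have ht2 : t (2 * m + 2 * r) = (p : ℂ) ^ r * ∑ j, α₀ p j := by
    rw [ht]
    simp only
    rw [hmid, show 2 * m + 2 * r = 2 * (m + r) by ring, pow_mul]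
    norm_num
  have ht3 : ∀ k, t (k + 2 * r) = (-1) ^ k * (β p (k + 2 * r)).sum := by
    intro k
    rw [ht]
    simp only
    rw [pow_add, pow_mul]
    norm_num
  -- the identity
  set U1 := ∑ k ∈ range (2 * m), t k with hU1
  set U2 := ∑ k ∈ range (2 * m + 2 * r), t k with hU2
  set U3 := ∑ k ∈ Ico (2 * m + 1) (4 * m + 1), (-1) ^ k * ((β p (k + 2 * r)).sum / (p : ℂ) ^ r) with hU3
  have hU3' : ∑ k ∈ Ico (2 * m + 1) (4 * m + 1), t (k + 2 * r) = (p : ℂ) ^ r * U3 := by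
    rw [hU3, Finset.mul_sum]
    refine Finset.sum_congr rfl fun k _ => ?_
    rw [ht3]
    field_simp
  have hNN : (p : ℝ) ^ (m + 1) * NN g f m p₀ p (red p c) =
      (coneX g f p (red p c) - meanX g f p) / ((p : ℝ) - 1) := by
    rw [NN, dif_pos ⟨hp, hpp⟩]
    field_simp
  set μ := meanX g f p with hμ
  set w : ℝ := (μ - coneY g p / (p : ℝ) ^ r) / ((p : ℝ) - 1) - e * (p : ℝ) ^ m with hw
  have key : (∑ j, α p j) - (∑ j, α₀ p j) -
      ((e * (p : ℝ) ^ m + (p : ℝ) ^ (m + 1) * NN g f m p₀ p (red p c) : ℝ) : ℂ) =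
      (w : ℂ) + (U2 / (p : ℂ) ^ r - U1) := by
    have hα : ∑ j, α p j = (coneX g f p (red p c) : ℂ) / ((p : ℂ) - 1) - U1 - U3 := by
      rw [hX]
      field_simp
      ring
    have hα₀ : ∑ j, α₀ p j = (coneY g p : ℂ) / (((p : ℂ) - 1) * (p : ℂ) ^ r) -
        U2 / (p : ℂ) ^ r - U3 := by
      have h1 : (coneY g p : ℂ) = ((p : ℂ) - 1) * (U2 + (p : ℂ) ^ r * ∑ j, α₀ p j + (p : ℂ) ^ r * U3) := by
        rw [hYc]
        change _ * ∑ k ∈ range (2 * D + 1), t k = _
        rw [hsplit, ht2, hU3']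
      rw [h1]
      field_simp
      ring
    rw [hα, hα₀, hNN, hw]
    push_cast
    field_simp
    ring
  rw [key]
  have hbet : ∀ k ∈ range (2 * D + 1), (bet k : ℝ) ≤ ∑ k ∈ range (2 * D + 1), (bet k : ℝ) :=
    fun k hk => Finset.single_le_sum (f := fun k => (bet k : ℝ)) (fun _ _ => by positivity) hk
  have hterm : ∀ k ≤ 2 * D, ‖t k‖ ≤ bet k * (p : ℝ) ^ ((k : ℝ) / 2) := by
    intro k hk
    rw [ht]
    simp only
    rw [norm_mul, norm_pow, norm_neg, norm_one, one_pow, one_mul]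
    exact sum_le' (hY.card p hp hpp k hk) fun z hz => (hY.weight p hp hpp k hk z hz).le
  have hpart : ∀ L : ℕ, L ≤ 2 * D + 1 → ‖∑ k ∈ range L, t k‖ ≤
      (∑ k ∈ range (2 * D + 1), (bet k : ℝ)) * (p : ℝ) ^ (((L : ℝ) - 1) / 2) := by
    intro L hL
    refine (norm_sum_le _ _).trans ?_
    rw [Finset.sum_mul]
    calc _ ≤ ∑ k ∈ range L, (bet k : ℝ) * (p : ℝ) ^ (((L : ℝ) - 1) / 2) := by
          refine Finset.sum_le_sum fun k hk => ?_
          have hkL := Finset.mem_range.mp hk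
          refine (hterm k (by omega)).trans ?_
          have h5 : (k : ℝ) + 1 ≤ L := by exact_mod_cast hkL
          have h6 : (k : ℝ) / 2 ≤ ((L : ℝ) - 1) / 2 := by linarith
          exact mul_le_mul_of_nonneg_left (Real.rpow_le_rpow_of_exponent_le hp1 h6) (by positivity)
      _ ≤ _ := Finset.sum_le_sum_of_subset_of_nonneg (Finset.range_subset_range.mpr hL)
          fun k _ _ => by positivity
  have hB0 : 0 ≤ ∑ k ∈ range (2 * D + 1), (bet k : ℝ) := Finset.sum_nonneg fun _ _ => by positivity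
  have h1 : ‖(w : ℂ)‖ ≤ C₀ * (p : ℝ) ^ ((m : ℝ) - 1 / 2) := by
    rw [Complex.norm_real, Real.norm_eq_abs]
    exact hmean p hpp
  have h2 : ‖U1‖ ≤ (∑ k ∈ range (2 * D + 1), (bet k : ℝ)) * (p : ℝ) ^ ((m : ℝ) - 1 / 2) := by
    refine (hpart (2 * m) (by omega)).trans (le_of_eq ?_)
    congr 2
    push_cast
    ring
  have h3 : ‖U2 / (p : ℂ) ^ r‖ ≤
      (∑ k ∈ range (2 * D + 1), (bet k : ℝ)) * (p : ℝ) ^ ((m : ℝ) - 1 / 2) := by
    rw [norm_div, norm_pow, Complex.norm_natCast, div_le_iff₀ (by positivity)]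
    refine (hpart (2 * m + 2 * r) (by omega)).trans (le_of_eq ?_)
    rw [mul_assoc, ← Real.rpow_natCast, ← Real.rpow_add hp0]
    congr 2
    push_cast
    ring
  have i1 := norm_add_le (w : ℂ) (U2 / (p : ℂ) ^ r - U1)
  have i2 := norm_sub_le (U2 / (p : ℂ) ^ r) U1
  have e3 : (C₀ + 2 * ∑ k ∈ range (2 * D + 1), (bet k : ℝ)) * (p : ℝ) ^ ((m : ℝ) - 1 / 2) =
      C₀ * (p : ℝ) ^ ((m : ℝ) - 1 / 2) +
      (∑ k ∈ range (2 * D + 1), (bet k : ℝ)) * (p : ℝ) ^ ((m : ℝ) - 1 / 2) +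
      (∑ k ∈ range (2 * D + 1), (bet k : ℝ)) * (p : ℝ) ^ ((m : ℝ) - 1 / 2) := by ring
  rw [e3]
  linarith

end Pool.Agent.L7h11.RS
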