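import Mathlib
import Pool.Agent.L7h11.RS.Main

/-!
# All the complete intersections of forms of the same degree in a projective space
-/

set_option autoImplicit false

namespace Pool.Agent.L7h11.RS

open Finset Pool.Agent.Y722.HS Pool.Agent.Y722.LS

variable {n d : ℕ}

theorem mons_hom (ν : Mon n d) : (mons n d ν).IsHomogeneous d := by
  unfold mons
  have h1 := MvPolynomial.IsHomogeneous.prod Finset.univ
    (fun i : Fin (n + 1) => (MvPolynomial.X i : MvPolynomial (Fin (n + 1)) ℤ) ^ (ν.1 i : ℕ))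
    (fun i => (ν.1 i : ℕ)) (fun i _ => by
      have := (MvPolynomial.isHomogeneous_X ℤ i).pow (ν.1 i : ℕ)
      rwa [one_mul] at this)
  rwa [ν.2] at h1

theorem aeval_mons {R : Type*} [CommRing R] (ν : Mon n d) (x : Fin (n + 1) → R) :
    MvPolynomial.aeval x (mons n d ν) = mev x ν := by
  unfold mons mev
  rw [map_prod]
  refine Finset.prod_congr rfl fun i _ => ?_
  rw [map_pow, MvPolynomial.aeval_X]

theorem exists_pw (k : Fin (n + 1)) : ∃ ν : Mon n d, ∀ i, (ν.1 i : ℕ) = if i = k then d else 0 :=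
  ⟨mkMon (fun i => if i = k then d else 0) (by simp), fun i => rfl⟩

theorem mev_pw {R : Type*} [CommRing R] (x : Fin (n + 1) → R) (k : Fin (n + 1)) (ν : Mon n d)
    (hν : ∀ i, (ν.1 i : ℕ) = if i = k then d else 0) : mev x ν = x k ^ d := by
  unfold mev
  rw [Finset.prod_eq_single k]
  · rw [hν k, if_pos rfl]
  · intro i _ hi
    rw [hν i, if_neg hi, pow_zero]
  · intro h
    exact absurd (Finset.mem_univ _) h

theorem exists_pw2 (hd : 1 ≤ d) (k l : Fin (n + 1)) : ∃ ν : Mon n d,
    ∀ (R : Type) [CommRing R] (x : Fin (n + 1) → R), mev x ν = x k ^ (d - 1) * x l := by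
  refine ⟨mkMon (fun i => (if i = k then d - 1 else 0) + (if i = l then 1 else 0)) ?_, ?_⟩
  · rw [Finset.sum_add_distrib]
    simp
    omega
  · intro R _ x
    unfold mev
    simp only [mkMon_apply, pow_add]
    rw [Finset.prod_mul_distrib]
    congr 1
    · rw [Finset.prod_eq_single k]
      · rw [if_pos rfl]
      · intro i _ hi
        rw [if_neg hi, pow_zero]
      · intro h
        exact absurd (Finset.mem_univ _) h
    · rw [Finset.prod_eq_single l]
      · rw [if_pos rfl, pow_one]
      · intro i _ hi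
        rw [if_neg hi, pow_zero]
      · intro h
        exact absurd (Finset.mem_univ _) h

section
variable {r : ℕ} {p : ℕ} [Fact p.Prime]

theorem same_image (hd : 1 ≤ d) {x y : Fin (n + 1) → ZMod p} (hx : x ≠ 0) (hy : y ≠ 0)
    (h : SameImage (r := r) (fun _ => mons n d) p x y) : ∃ t : ZMod p, y = fun i => t * x i := by
  obtain ⟨k, -, -, h⟩ := h
  simp only [aeval_mons] at h
  obtain ⟨i, hi⟩ : ∃ i, x i ≠ 0 := Function.ne_iff.mp hx
  obtain ⟨l, hl⟩ : ∃ i, y i ≠ 0 := Function.ne_iff.mp hy
  obtain ⟨νi, hνi⟩ := exists_pw (n := n) (d := d) i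
  obtain ⟨νl, hνl⟩ := exists_pw (n := n) (d := d) l
  have h1 := h νi νl
  rw [mev_pw x i νi hνi, mev_pw y l νl hνl, mev_pw y i νi hνi] at h1
  have hyi : y i ≠ 0 := by
    intro h0
    rw [h0, zero_pow (by omega), mul_zero] at h1
    exact mul_ne_zero (pow_ne_zero _ hi) (pow_ne_zero _ hl) h1
  refine ⟨y i / x i, ?_⟩
  funext j
  obtain ⟨ν, hν⟩ := exists_pw2 (n := n) (d := d) hd i j
  have h2 := h νi ν
  rw [mev_pw x i νi hνi, mev_pw y i νi hνi, hν, hν] at h2
  obtain ⟨d', rfl⟩ : ∃ d', d = d' + 1 := ⟨d - 1, by omega⟩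
  rw [Nat.add_sub_cancel, pow_succ, pow_succ] at h2
  have h3 : (x i ^ d' * y i ^ d') * (x i * y j) = (x i ^ d' * y i ^ d') * (x j * y i) := by
    linear_combination h2
  have h4 := mul_left_cancel₀ (mul_ne_zero (pow_ne_zero _ hi) (pow_ne_zero _ hyi)) h3
  rw [div_mul_eq_mul_div, eq_div_iff hi]
  linear_combination h4

theorem outs_mons {x : Fin (n + 1) → ZMod p} (hx : x ≠ 0) :
    outs (r := r) (fun _ => mons n d) p x = r := by
  classical
  obtain ⟨i, hi⟩ : ∃ i, x i ≠ 0 := Function.ne_iff.mp hx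
  obtain ⟨νi, hνi⟩ := exists_pw (n := n) (d := d) i
  unfold outs
  rw [Finset.filter_true_of_mem]
  · simp
  · intro k _
    refine ⟨νi, ?_⟩
    rw [aeval_mons, mev_pw x i νi hνi]
    exact pow_ne_zero _ hi

theorem pairs_mons (hd : 1 ≤ d) (m : ℕ) (hn : n = m + r) (g : Fin 0 → MvPolynomial (Fin (n + 1)) ℤ) :
    pairs (r := r) g (fun _ => mons n d) p ≤ 1 * (p : ℝ) ^ (m + 2) := by
  classical
  have hp0 : (0 : ℝ) < p := by exact_mod_cast (Fact.out : p.Prime).pos
  unfold pairs
  have h1 : ∀ x : Fin (n + 1) → ZMod p, (∑ y : Fin (n + 1) → ZMod p,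
      if (x ≠ 0 ∧ OnY g p x) ∧ (y ≠ 0 ∧ OnY g p y) ∧
        SameImage (r := r) (fun _ => mons n d) p x y then
        1 / (p : ℝ) ^ outs (r := r) (fun _ => mons n d) p x else 0) ≤ p * (1 / (p : ℝ) ^ r) := by
    intro x
    by_cases hx : x ≠ 0 ∧ OnY g p x
    · rw [outs_mons hx.1, ← Finset.sum_filter, Finset.sum_const, nsmul_eq_mul]
      gcongr
      have h2 : (Finset.univ.filter fun y : Fin (n + 1) → ZMod p =>
          (x ≠ 0 ∧ OnY g p x) ∧ (y ≠ 0 ∧ OnY g p y) ∧
          SameImage (r := r) (fun _ => mons n d) p x y) ⊆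
          Finset.univ.image (fun t : ZMod p => fun i => t * x i) := by
        intro y hy
        rw [Finset.mem_filter] at hy
        obtain ⟨t, ht⟩ := same_image hd hx.1 hy.2.2.1.1 hy.2.2.2
        exact Finset.mem_image.mpr ⟨t, Finset.mem_univ _, ht.symm⟩
      refine (Finset.card_le_card h2).trans (Finset.card_image_le.trans ?_)
      rw [Finset.card_univ, ZMod.card]
    · rw [Finset.sum_eq_zero fun y _ => if_neg fun h => hx h.1]
      positivity
  refine (Finset.sum_le_sum fun x _ => h1 x).trans (le_of_eq ?_)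
  rw [Finset.sum_const, nsmul_eq_mul, Finset.card_univ, Fintype.card_fun, ZMod.card,
    Fintype.card_fin, hn]
  push_cast
  field_simp
  ring

theorem coneY_proj (g : Fin 0 → MvPolynomial (Fin (n + 1)) ℤ) :
    (coneY g p : ℝ) = (p : ℝ) ^ (n + 1) - 1 := by
  classical
  have h1 : coneY g p = Fintype.card (Fin (n + 1) → ZMod p) - 1 := by
    unfold coneY
    rw [Nat.card_eq_fintype_card, Fintype.card_subtype]
    have : (Finset.univ.filter fun x : Fin (n + 1) → ZMod p => x ≠ 0 ∧ OnY g p x) =
        Finset.univ.erase 0 := by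
      ext x
      simp only [Finset.mem_filter, Finset.mem_univ, true_and, Finset.mem_erase, and_true]
      exact ⟨fun h => h.1, fun h => ⟨h, fun a => a.elim0⟩⟩
    rw [this, Finset.card_erase_of_mem (Finset.mem_univ _), Finset.card_univ]
  rw [h1, Fintype.card_fun, ZMod.card, Fintype.card_fin, Nat.cast_sub]
  · push_cast
    ring
  · exact Nat.one_le_pow _ _ (Fact.out : p.Prime).pos

theorem meanX_mons (g : Fin 0 → MvPolynomial (Fin (n + 1)) ℤ) :
    meanX (r := r) g (fun _ => mons n d) p = coneY g p / (p : ℝ) ^ r := by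
  classical
  rw [← mu_eq]
  unfold mu
  have h1 : ∀ x ∈ UU g p, pr (FF (r := r) (fun _ => mons n d) p) x = 1 / (p : ℝ) ^ r := by
    intro x hx
    rw [pr_eq, outs_mons]
    exact (Finset.mem_filter.mp hx).2.1
  rw [Finset.sum_congr rfl h1, Finset.sum_const, nsmul_eq_mul, mul_one_div]
  congr 2
  unfold coneY UU
  rw [Nat.card_eq_fintype_card, Fintype.card_subtype]

end

/-- the cohomology of the projective space -/
theorem coh_proj (g : Fin 0 → MvPolynomial (Fin (n + 1)) ℤ) (m : ℕ) :
    IsCohomology g m n 0 (fun k => if Even k then 1 else 0) projCoh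
      (fun (p : ℕ) (_ : Fin 1) => (p : ℂ) ^ m) := by
  refine ⟨?_, ?_, ?_, ?_, ?_, ?_⟩
  · intro p _ _ k _
    unfold projCoh
    split_ifs <;> simp
  · intro p hp _ k _ z hz
    unfold projCoh at hz
    split_ifs at hz with h
    · rw [Multiset.mem_singleton] at hz
      rw [hz, norm_pow, Complex.norm_natCast, ← Real.rpow_natCast]
      congr 1
      obtain ⟨l, rfl⟩ := h
      have : (l + l) / 2 = l := by omega
      rw [this]
      push_cast
      ring
    · simp at hz
  · intro p hp _
    have := Fact.mk hp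
    have h1 := coneY_proj (p := p) g
    have h2 : ∀ N : ℕ, ∑ k ∈ range (2 * N + 1), (-1 : ℂ) ^ k * (projCoh p k).sum =
        ∑ l ∈ range (N + 1), (p : ℂ) ^ l := by
      intro N
      induction N with
      | zero => simp [projCoh]
      | succ N ih =>
        rw [show 2 * (N + 1) + 1 = 2 * N + 1 + 1 + 1 by ring, Finset.sum_range_succ,
          Finset.sum_range_succ, ih, Finset.sum_range_succ _ (N + 1)]
        have e1 : ¬ Even (2 * N + 1) := by
          rw [Nat.not_even_iff_odd]
          exact ⟨N, rfl⟩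
        have e2 : Even (2 * N + 1 + 1) := ⟨N + 1, by ring⟩
        have e3 : (2 * N + 1 + 1) / 2 = N + 1 := by omega
        rw [projCoh, if_neg e1, projCoh, if_pos e2, e3, Even.neg_one_pow e2]
        simp
    rw [h2, mul_comm, geom_sum_mul]
    exact_mod_cast congrArg (fun t : ℝ => (t : ℂ)) h1
  · intro p hp _ k hk
    have hpc : (p : ℂ) ≠ 0 := by exact_mod_cast hp.ne_zero
    unfold projCoh
    by_cases h : Even k
    · have h1 : Even (2 * n - k) := by
        rw [Nat.even_sub (by omega)]
        simp [h]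
      rw [if_pos h, if_pos h1, Multiset.map_singleton, ← pow_add]
      congr 2
      obtain ⟨l, rfl⟩ := h
      omega
    · have h1 : ¬ Even (2 * n - k) := by
        rw [Nat.even_sub (by omega)]
        simp [h]
      rw [if_neg h, if_neg h1, Multiset.map_zero]
  · intro p _ _
    unfold projCoh
    rw [if_pos ⟨m, by ring⟩]
    have : 2 * m / 2 = m := by omega
    rw [this]
    rfl
  · intro p hp j
    rw [norm_pow, Complex.norm_natCast]

/-- a smooth complete intersection -/
theorem smooth_member (hd : 1 ≤ d) (r q : ℕ) (hq : q = r) (g : Fin 0 → MvPolynomial (Fin (n + 1)) ℤ) :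
    ∃ c₀ : (Σ _ : Fin r, Mon n d) → ℤ,
      IsSmoothAt (eqs g (fun _ : Fin r => mons n d) (fun i => (c₀ i : ℂ))) q := by
  classical
  subst hq
  choose ν hν using fun k => exists_pw (n := n) (d := d) k
  have hinj : Function.Injective ν := by
    intro a b hab
    by_contra hne
    have h1 := hν a a
    have h2 := hν b a
    rw [hab, if_pos rfl] at h1
    rw [if_neg hne] at h2
    omega
  refine ⟨fun w => ∑ j : Fin (n + 1), if w.2 = ν j then ((j : ℤ) + 1) ^ (w.1 : ℕ) else 0, ?_⟩
  have hF : ∀ k : Fin q, lform (mons n d) (fun i => ((∑ j : Fin (n + 1),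
      if i = ν j then ((j : ℤ) + 1) ^ (k : ℕ) else 0 : ℤ) : ℂ)) =
      ∑ j : Fin (n + 1), MvPolynomial.C (((j : ℂ) + 1) ^ (k : ℕ)) *
        (MvPolynomial.X j : MvPolynomial (Fin (n + 1)) ℂ) ^ d := by
    intro k
    unfold lform
    have h1 : ∀ i : Mon n d, MvPolynomial.C (((∑ j : Fin (n + 1),
        if i = ν j then ((j : ℤ) + 1) ^ (k : ℕ) else 0 : ℤ) : ℂ)) *
        MvPolynomial.map (Int.castRingHom ℂ) (mons n d i) =
        ∑ j : Fin (n + 1), if i = ν j then MvPolynomial.C (((j : ℂ) + 1) ^ (k : ℕ)) *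
          MvPolynomial.map (Int.castRingHom ℂ) (mons n d i) else 0 := by
      intro i
      push_cast
      rw [map_sum, Finset.sum_mul]
      refine Finset.sum_congr rfl fun j _ => ?_
      split_ifs
      · rfl
      · simp
    rw [Finset.sum_congr rfl fun i _ => h1 i, Finset.sum_comm]
    refine Finset.sum_congr rfl fun j _ => ?_
    rw [Finset.sum_ite_eq' Finset.univ (ν j), if_pos (Finset.mem_univ _)]
    congr 1
    unfold mons
    rw [map_prod, Finset.prod_eq_single j]
    · rw [hν j, if_pos rfl]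
      simp
    · intro i _ hi
      rw [hν j, if_neg hi]
      simp
    · intro h
      exact absurd (Finset.mem_univ _) h
  intro x hx0 hx
  have hd0 : (d : ℂ) ≠ 0 := by exact_mod_cast (by omega : d ≠ 0)
  -- the equations
  have hE : ∀ k : Fin q, ∑ j : Fin (n + 1), ((j : ℂ) + 1) ^ (k : ℕ) * x j ^ d = 0 := by
    intro k
    have h1 := hx (Sum.inr k)
    simp only [eqs, Sum.elim_inr] at h1
    rw [hF k] at h1
    simpa using h1
  set S : Finset (Fin (n + 1)) := Finset.univ.filter fun j => x j ≠ 0 with hS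
  have hinj2 : Function.Injective (fun j : Fin (n + 1) => (j : ℂ) + 1) := by
    intro a b hab
    have : ((a : ℕ) : ℂ) = ((b : ℕ) : ℂ) := by simpa using hab
    exact Fin.ext (by exact_mod_cast this)
  have hcard : q ≤ S.card := by
    by_contra hlt
    push Not at hlt
    set e := S.equivFin.symm with he
    have hV : (Matrix.vandermonde fun a : Fin S.card => (((e a : Fin (n + 1)) : ℕ) : ℂ) + 1).det ≠ 0 := by
      rw [Matrix.det_vandermonde_ne_zero_iff]
      intro a b hab
      exact e.injective (Subtype.ext (hinj2 hab))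
    have hV2 : (Matrix.vandermonde fun a : Fin S.card =>
        (((e a : Fin (n + 1)) : ℕ) : ℂ) + 1).vecMul (fun a => x (e a) ^ d) = 0 := by
      funext k
      simp only [Matrix.vecMul, dotProduct, Matrix.vandermonde_apply, Pi.zero_apply]
      have h1 := hE ⟨k, by omega⟩
      have h2 : ∑ j : Fin (n + 1), ((j : ℂ) + 1) ^ (k : ℕ) * x j ^ d =
          ∑ j ∈ S, ((j : ℂ) + 1) ^ (k : ℕ) * x j ^ d := by
        symm
        apply Finset.sum_subset (Finset.filter_subset _ _)
        intro j _ hj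
        have : x j = 0 := by
          by_contra h
          exact hj (Finset.mem_filter.mpr ⟨Finset.mem_univ _, h⟩)
        rw [this, zero_pow (by omega), mul_zero]
      rw [h2, ← Finset.sum_coe_sort, ← Equiv.sum_comp e] at h1
      rw [← h1]
      exact Finset.sum_congr rfl fun a _ => mul_comm _ _
    have h3 : (fun a => x (e a) ^ d) = 0 := by
      by_contra hne
      exact hV (Matrix.exists_vecMul_eq_zero_iff.mp ⟨_, hne, hV2⟩)
    obtain ⟨i, hi⟩ : ∃ i, x i ≠ 0 := Function.ne_iff.mp hx0
    have hiS : i ∈ S := Finset.mem_filter.mpr ⟨Finset.mem_univ _, hi⟩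
    have h4 := congrFun h3 (S.equivFin ⟨i, hiS⟩)
    simp only [he, Equiv.symm_apply_apply, Pi.zero_apply] at h4
    exact pow_ne_zero _ hi h4
  obtain ⟨v, hv⟩ : ∃ v : Fin q → Fin (n + 1), Function.Injective v ∧ ∀ a, x (v a) ≠ 0 := by
    refine ⟨fun a => S.equivFin.symm (Fin.castLE hcard a), ?_, ?_⟩
    · intro a b hab
      have := S.equivFin.symm.injective (Subtype.ext hab)
      exact Fin.castLE_injective hcard this
    · intro a
      exact (Finset.mem_filter.mp (S.equivFin.symm (Fin.castLE hcard a)).2).2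
  refine ⟨Sum.inr, v, ?_⟩
  have hM : (Matrix.of fun i j : Fin q => MvPolynomial.eval x (MvPolynomial.pderiv (v j)
      (eqs g (fun _ : Fin q => mons n d) (fun w => ((∑ j : Fin (n + 1),
        if w.2 = ν j then ((j : ℤ) + 1) ^ (w.1 : ℕ) else 0 : ℤ) : ℂ)) (Sum.inr i)))) =
      (Matrix.vandermonde fun a : Fin q => (((v a : Fin (n + 1)) : ℕ) : ℂ) + 1).transpose *
        Matrix.diagonal (fun a => (d : ℂ) * x (v a) ^ (d - 1)) := by
    ext i j
    rw [Matrix.mul_diagonal, Matrix.of_apply, Matrix.transpose_apply, Matrix.vandermonde_apply]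
    simp only [eqs, Sum.elim_inr]
    rw [hF i, map_sum, map_sum, Finset.sum_eq_single (v j)]
    · rw [Derivation.leibniz, MvPolynomial.pderiv_C, smul_zero, add_zero, smul_eq_mul,
        MvPolynomial.pderiv_pow, MvPolynomial.pderiv_X_self]
      simp
    · intro l _ hl
      rw [Derivation.leibniz, MvPolynomial.pderiv_C, smul_zero, add_zero, smul_eq_mul,
        MvPolynomial.pderiv_pow, MvPolynomial.pderiv_X_of_ne hl]
      simp
    · intro h
      exact absurd (Finset.mem_univ _) h
  rw [hM, Matrix.det_mul, Matrix.det_transpose, Matrix.det_diagonal]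
  apply mul_ne_zero
  · rw [Matrix.det_vandermonde_ne_zero_iff]
    intro a b hab
    exact hv.1 (hinj2 hab)
  · rw [Finset.prod_ne_zero_iff]
    intro a _
    exact mul_ne_zero hd0 (pow_ne_zero _ (hv.2 a))

/-- the L-function of the class of a linear section -/
theorem LP_proj (m : ℕ) (ε τ : ℝ) (hε : 0 < ε) :
    LP (fun (p : ℕ) (_ : Fin 1) => (p : ℂ) ^ m) (m + 1 + ε + τ * Complex.I) =
      riemannZeta (1 + ε + τ * Complex.I) := by
  have h1 : 1 < (1 + (ε : ℂ) + τ * Complex.I).re := by simp [hε]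
  rw [← riemannZeta_eulerProduct_tprod h1]
  unfold LP
  refine tprod_congr fun p => ?_
  rw [Finset.prod_const, Finset.card_univ, Fintype.card_fin, pow_one]
  congr 2
  have hpc : ((p : ℕ) : ℂ) ≠ 0 := by exact_mod_cast p.2.ne_zero
  rw [← Complex.cpow_natCast, ← Complex.cpow_add _ _ hpc]
  congr 1
  ring

end Pool.Agent.L7h11.RS
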