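import Mathlib
import Pool.Agent.L7h11.RS.CDefs
import Pool.Agent.L7h11.RS.Space

/-!
# Products of a fixed variety and random complete intersection curves
-/

set_option autoImplicit false

namespace Pool.Agent.L7h11.RS

open Finset Pool.Agent.Y722.HS Pool.Agent.Y722.LS Pool.Agent.N534.TL

variable {n s r : ℕ} {ι : Fin r → Type} [∀ k, Fintype (ι k)] [∀ k, DecidableEq (ι k)]
  {g : Fin s → MvPolynomial (Fin (n + 1)) ℤ} {f : ∀ k, ι k → MvPolynomial (Fin (n + 1)) ℤ}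

open Classical in
/-- a multiple of the deviation of the number of the points -/
noncomputable def NW (g : Fin s → MvPolynomial (Fin (n + 1)) ℤ)
    (f : ∀ k, ι k → MvPolynomial (Fin (n + 1)) ℤ) (w : ℕ → ℝ) (p0 : ℕ) (p : ℕ)
    (c : (Σ k, ι k) → ZMod p) : ℝ :=
  if h : p.Prime ∧ p0 ≤ p then
    (haveI : NeZero p := ⟨h.1.ne_zero⟩
     (w p * (coneX g f p c - meanX g f p)))
  else 0

/-- the family -/
theorem famW (P : MvPolynomial (Σ k, ι k) ℤ) (c0 : (Σ k, ι k) → ℤ) (hP : MvPolynomial.eval c0 P ≠ 0)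
    (w : ℕ → ℝ) (p0 : ℕ) (M : ℝ) (hM0 : 0 ≤ M)
    (hM : ∀ (p : ℕ) [Fact p.Prime], p0 ≤ p → w p ^ 2 * pairs g f p ≤ M / (p : ℝ) ^ 2) :
    Fam (1 + M + (p0 + P.totalDegree + |(MvPolynomial.eval c0 P : ℝ)|))
      (NW g f w p0) (BB P p0) := by
  classical
  have hp00 : (0 : ℝ) ≤ p0 := by positivity
  have hdeg0 : (0 : ℝ) ≤ P.totalDegree := by positivity
  have hev0 : (0 : ℝ) ≤ |(MvPolynomial.eval c0 P : ℝ)| := abs_nonneg _
  set A : ℝ := 1 + M + (p0 + P.totalDegree + |(MvPolynomial.eval c0 P : ℝ)|) with hA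
  have hA0 : 0 ≤ A := by positivity
  refine ⟨by rw [hA]; nlinarith, ?_, ?_, ?_, ?_, ?_⟩
  · intro p hpF
    have hp := hpF.out
    have hp0 : (0 : ℝ) < p := by exact_mod_cast hp.pos
    by_cases hlt : p.Prime ∧ p0 ≤ p
    · have h1 : (fun c : (Σ k, ι k) → ZMod p => NW g f w p0 p c ^ 2) =
          fun c => (w p ^ 2) * (coneX g f p c - meanX g f p) ^ 2 := by
        funext c
        rw [NW, dif_pos hlt, mul_pow]
      rw [h1, EM_mul]
      calc _ ≤ w p ^ 2 * pairs g f p :=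
            mul_le_mul_of_nonneg_left (var_le (g := g) (f := f) (p := p)) (sq_nonneg _)
        _ ≤ M / (p : ℝ) ^ 2 := hM p hlt.2
        _ ≤ A / (p : ℝ) ^ 2 := by
            gcongr
            linarith
    · have h1 : (fun c : (Σ k, ι k) → ZMod p => NW g f w p0 p c ^ 2) = fun _ => 0 := by
        funext c; simp [NW, hlt]
      rw [h1, EM_const]
      positivity
  · intro p hpF
    have hp := hpF.out
    have hp0 : (0 : ℝ) < p := by exact_mod_cast hp.pos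
    have h0 : EM p (fun c : (Σ k, ι k) → ZMod p => NW g f w p0 p c) = 0 := by
      by_cases hlt : p.Prime ∧ p0 ≤ p
      · have h1 : (fun c : (Σ k, ι k) → ZMod p => NW g f w p0 p c) =
            fun c => w p * (cnt (FF f p) (UU g p) c + -mu (FF f p) (UU g p)) := by
          funext c
          rw [NW, dif_pos hlt, cnt_eq, mu_eq]
          ring
        rw [h1, EM_mul, EM_add, EM_cnt, EM_const, add_neg_cancel, mul_zero]
      · have h1 : (fun c : (Σ k, ι k) → ZMod p => NW g f w p0 p c) = fun _ => 0 := by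
          funext c; simp [NW, hlt]
        rw [h1, EM_const]
    rw [h0, abs_zero]
    positivity
  · intro p c
    rcases BB_zero_or P p0 p c with h | h <;> rw [h]
    exact zero_le_one
  · intro p c
    rcases BB_zero_or P p0 p c with h | h <;> rw [h]
    exact zero_le_one
  · intro p hpF
    have hp := hpF.out
    have hp0 : (0 : ℝ) < p := by exact_mod_cast hp.pos
    refine (EM_BB P c0 hP p0 p).trans ?_
    gcongr
    linarith

theorem prod_sum (S T : Multiset ℂ) : ((S ×ˢ T).map fun z => z.1 * z.2).sum = S.sum * T.sum := by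
  induction S using Multiset.induction_on with
  | empty => simp
  | cons a S ih =>
    rw [Multiset.cons_product, Multiset.map_add, Multiset.sum_add, ih, Multiset.sum_cons,
      Multiset.map_map, add_mul]
    congr 1
    have h1 : ((fun z : ℂ × ℂ => z.1 * z.2) ∘ Prod.mk a) = fun b => a * b := rfl
    rw [h1, Multiset.sum_map_mul_left, Multiset.map_id']

/-- the comparison of the traces on `H²` -/
theorem relC {p₀ b b₂ b' : ℕ} {bet : ℕ → ℕ} {β : ℕ → ℕ → Multiset ℂ}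
    (hW : IsCohomology g 0 (r + 1) p₀ bet β (fun _ (_ : Fin 1) => 1))
    {t : ℕ → ℤ} {b₁ : ℕ} (ht : ∀ p : ℕ, p.Prime → p₀ ≤ p → |(t p : ℝ)| ≤ b₁ * (p : ℝ) ^ ((1 : ℝ) / 2))
    {δ : ℕ → Fin b₂ → ℂ} {ω : ℕ → Fin b' → ℂ}
    (hω : ∀ p : ℕ, p.Prime → p₀ ≤ p → ∑ j, ω p j = t p * (β p 1).sum)
    (P : MvPolynomial (Σ k, ι k) ℤ)
    (hP : ∀ (K : Type) [Field K] (c : (Σ k, ι k) → K),
      MvPolynomial.eval₂ (Int.castRingHom K) c P ≠ 0 → IsSmoothAt (eqs g f c) (n - 1))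
    (C₀ : ℝ) (hmean : ∀ (p : ℕ) [Fact p.Prime], p₀ ≤ p →
      |(meanX g f p - coneY g p / (p : ℝ) ^ r) / ((p : ℝ) - 1)| ≤ C₀)
    {c : (Σ k, ι k) → ℤ} {α : ℕ → Fin b → ℂ} (h : IsFrobeniusProduct g f p₀ t δ b c α) :
    Rel (NW g f (fun p => -(t p : ℝ) / (((p : ℝ) - 1) * (p : ℝ) ^ 2)) p₀) (BB P p₀) 1 1
      (b₁ * (1 + C₀ + ∑ k ∈ range (2 * (r + 1) + 1), (bet k : ℝ)))
      (fun p => Fin.append (δ p) (ω p)) c α := by
  classical
  refine ⟨fun p hp j => by rw [pow_one]; exact h.bound p hp j, fun p hp hB => ?_⟩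
  have : Fact p.Prime := ⟨hp⟩
  have hp0 : (0 : ℝ) < p := by exact_mod_cast hp.pos
  have hp1 : (1 : ℝ) ≤ p := by exact_mod_cast hp.one_lt.le
  have hb : ¬ (p < p₀ ∨ MvPolynomial.eval₂ (Int.castRingHom (ZMod p)) (red p c) P = 0) := by
    intro h1
    apply hB
    unfold BB
    rw [if_pos h1]
  push Not at hb
  obtain ⟨hb1, hb2⟩ := hb
  have hpp : p₀ ≤ p := by omega
  have hsm : IsSmoothAt (eqs g f (R := AlgebraicClosure (ZMod p))
      (fun i => (c i : AlgebraicClosure (ZMod p)))) (n - 1) := by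
    apply hP
    have h2 : MvPolynomial.eval₂ (Int.castRingHom (AlgebraicClosure (ZMod p)))
        (fun i => (c i : AlgebraicClosure (ZMod p))) P =
        algebraMap (ZMod p) (AlgebraicClosure (ZMod p))
          (MvPolynomial.eval₂ (Int.castRingHom (ZMod p)) (red p c) P) := by
      rw [MvPolynomial.eval₂_comp_left, RingHom.ext_int
        ((algebraMap (ZMod p) (AlgebraicClosure (ZMod p))).comp (Int.castRingHom (ZMod p)))
        (Int.castRingHom (AlgebraicClosure (ZMod p)))]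
      congr 1
    rw [h2]
    intro h3
    exact hb2 ((map_eq_zero _).mp h3)
  have hX := h.count p hpp hsm
  have hYc := hW.count p hp hpp
  have hp1' : (p : ℝ) - 1 ≠ 0 := by
    have : (1 : ℝ) < p := by exact_mod_cast hp.one_lt
    linarith
  have hp1c : ((p : ℂ) - 1) ≠ 0 := by exact_mod_cast hp1'
  have hpc : (p : ℂ) ≠ 0 := by exact_mod_cast hp.ne_zero
  have hS0 : (β p 0).sum = 1 := by
    have h1 := hW.middle p hp hpp
    rw [mul_zero] at h1
    rw [h1]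
    simp
  have hS1 : (β p (2 * (r + 1))).sum = (p : ℂ) ^ (r + 1) := by
    have h1 := hW.lefschetz p hp hpp 0 (by omega)
    rw [Nat.sub_zero, Nat.sub_zero] at h1
    rw [h1, Multiset.sum_map_mul_left, Multiset.map_id', hS0, mul_one]
  have hS2 : (β p (2 * r + 1)).sum = (p : ℂ) ^ r * (β p 1).sum := by
    have h1 := hW.lefschetz p hp hpp 1 (by omega)
    have e1 : 2 * (r + 1) - 1 = 2 * r + 1 := by omega
    have e2 : r + 1 - 1 = r := by omega
    rw [e1, e2] at h1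
    rw [h1, Multiset.sum_map_mul_left, Multiset.map_id']
  set u : ℕ → ℂ := fun k => (-1) ^ k * (β p k).sum with hu
  set U := ∑ k ∈ range (2 * r + 1), u k with hU
  have hsplit : ∑ k ∈ range (2 * (r + 1) + 1), u k = U - (p : ℂ) ^ r * (β p 1).sum + (p : ℂ) ^ (r + 1) := by
    have e1 : 2 * (r + 1) + 1 = 2 * r + 1 + 1 + 1 := by omega
    have e2 : 2 * r + 1 + 1 = 2 * (r + 1) := by omega
    rw [e1, Finset.sum_range_succ, Finset.sum_range_succ, e2]
    simp only [hu]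
    rw [hS1, hS2, pow_mul, pow_succ, pow_mul]
    norm_num
    ring
  have h1 : (coneY g p : ℂ) = ((p : ℂ) - 1) * (U - (p : ℂ) ^ r * (β p 1).sum + (p : ℂ) ^ (r + 1)) := by
    rw [hYc]
    change _ * ∑ k ∈ range (2 * (r + 1) + 1), u k = _
    rw [hsplit]
  set μ := meanX g f p with hμ
  set z : ℝ := (μ - coneY g p / (p : ℝ) ^ r) / ((p : ℝ) - 1) with hz
  have hNW : NW g f (fun p => -(t p : ℝ) / (((p : ℝ) - 1) * (p : ℝ) ^ 2)) p₀ p (red p c) =
      -(t p : ℝ) / (((p : ℝ) - 1) * (p : ℝ) ^ 2) * (coneX g f p (red p c) - μ) := by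
    rw [NW, dif_pos ⟨hp, hpp⟩]
  have hzc : (z : ℂ) = ((μ : ℂ) - (coneY g p : ℂ) / (p : ℂ) ^ r) / ((p : ℂ) - 1) := by
    rw [hz]
    push_cast
    ring
  have key : (∑ j, α p j) - (∑ j, Fin.append (δ p) (ω p) j) -
      ((1 * (p : ℝ) ^ 1 + (p : ℝ) ^ (1 + 1) *
        NW g f (fun p => -(t p : ℝ) / (((p : ℝ) - 1) * (p : ℝ) ^ 2)) p₀ p (red p c) : ℝ) : ℂ) =
      (t p : ℂ) * (1 - (z : ℂ) - U / (p : ℂ) ^ r) := by
    have hf : ∑ j, Fin.append (δ p) (ω p) j = ∑ j, δ p j + t p * (β p 1).sum := by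
      rw [Fin.sum_univ_add, ← hω p hp hpp]
      simp
    rw [hf, hX, hNW, hzc, h1]
    push_cast
    field_simp
    ring
  rw [key, norm_mul]
  have hB0 : 0 ≤ ∑ k ∈ range (2 * (r + 1) + 1), (bet k : ℝ) :=
    Finset.sum_nonneg fun _ _ => by positivity
  have hterm : ∀ k ≤ 2 * (r + 1), ‖u k‖ ≤ bet k * (p : ℝ) ^ ((k : ℝ) / 2) := by
    intro k hk
    simp only [hu]
    rw [norm_mul, norm_pow, norm_neg, norm_one, one_pow, one_mul]
    exact sum_le' (hW.card p hp hpp k hk) fun z hz => (hW.weight p hp hpp k hk z hz).le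
  have h3 : ‖U / (p : ℂ) ^ r‖ ≤ ∑ k ∈ range (2 * (r + 1) + 1), (bet k : ℝ) := by
    rw [norm_div, norm_pow, Complex.norm_natCast, div_le_iff₀ (by positivity)]
    refine (norm_sum_le _ _).trans ?_
    rw [Finset.sum_mul]
    calc _ ≤ ∑ k ∈ range (2 * r + 1), (bet k : ℝ) * (p : ℝ) ^ r := by
          refine Finset.sum_le_sum fun k hk => ?_
          have hkL := Finset.mem_range.mp hk
          refine (hterm k (by omega)).trans ?_
          have h5 : (k : ℝ) ≤ 2 * r := by exact_mod_cast (by omega : k ≤ 2 * r)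
          have h6 : (k : ℝ) / 2 ≤ (r : ℝ) := by linarith
          rw [← Real.rpow_natCast (p : ℝ) r]
          exact mul_le_mul_of_nonneg_left (Real.rpow_le_rpow_of_exponent_le hp1 h6) (by positivity)
      _ ≤ _ := Finset.sum_le_sum_of_subset_of_nonneg (Finset.range_subset_range.mpr (by omega))
          fun k _ _ => by positivity
  have h2 : ‖(z : ℂ)‖ ≤ C₀ := by
    rw [Complex.norm_real, Real.norm_eq_abs]
    exact hmean p hpp
  have h4 : ‖(1 : ℂ) - (z : ℂ) - U / (p : ℂ) ^ r‖ ≤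
      1 + C₀ + ∑ k ∈ range (2 * (r + 1) + 1), (bet k : ℝ) := by
    have i1 := norm_sub_le ((1 : ℂ) - (z : ℂ)) (U / (p : ℂ) ^ r)
    have i2 := norm_sub_le (1 : ℂ) (z : ℂ)
    rw [norm_one] at i2
    linarith
  have h5 : ‖(t p : ℂ)‖ ≤ b₁ * (p : ℝ) ^ ((1 : ℝ) / 2) := by
    have : (t p : ℂ) = ((t p : ℝ) : ℂ) := by push_cast; rfl
    rw [this, Complex.norm_real, Real.norm_eq_abs]
    exact ht p hp hpp
  have hC₀ : 0 ≤ C₀ := le_trans (norm_nonneg _) h2
  calc _ ≤ (b₁ * (p : ℝ) ^ ((1 : ℝ) / 2)) *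
        (1 + C₀ + ∑ k ∈ range (2 * (r + 1) + 1), (bet k : ℝ)) := by gcongr
    _ = _ := by
        have e1 : ((1 : ℕ) : ℝ) - 1 / 2 = 1 / 2 := by push_cast; ring
        rw [e1]
        ring

theorem LP_append {b₂ b' : ℕ} {δ : ℕ → Fin b₂ → ℂ} {ω : ℕ → Fin b' → ℂ}
    (hδ : ∀ p : ℕ, p.Prime → ∀ j, ‖δ p j‖ ≤ (p : ℝ) ^ 1)
    (hω : ∀ p : ℕ, p.Prime → ∀ j, ‖ω p j‖ ≤ (p : ℝ)) (ε τ : ℝ) (hε : 0 < ε) :
    LP (fun p => Fin.append (δ p) (ω p)) (2 + ε + τ * Complex.I) =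
      LP δ (2 + ε + τ * Complex.I) * LP ω (2 + ε + τ * Complex.I) := by
  have hs1 : ss 3 ε = (2 : ℂ) + ε := by
    unfold ss
    push_cast
    ring
  have hb1 : ∀ {b : ℕ} {α : ℕ → Fin b → ℂ}, (∀ p : ℕ, p.Prime → ∀ j, ‖α p j‖ ≤ (p : ℝ)) →
      ∀ p : ℕ, p.Prime → ∀ j, ‖twist α τ p j‖ ≤ (p : ℝ) ^ ((((3 : ℕ) : ℝ) - 1) / 2) := by
    intro b α hα p hp j
    have e : (((3 : ℕ) : ℝ) - 1) / 2 = 1 := by push_cast; ring
    rw [e, Real.rpow_one, twist_norm α τ p hp]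
    exact hα p hp j
  have hδ' : ∀ p : ℕ, p.Prime → ∀ j, ‖δ p j‖ ≤ (p : ℝ) := fun p hp j => by
    have := hδ p hp j
    rwa [pow_one] at this
  have happ : ∀ p : ℕ, p.Prime → ∀ j, ‖Fin.append (δ p) (ω p) j‖ ≤ (p : ℝ) := by
    intro p hp j
    refine Fin.addCases (fun i => ?_) (fun i => ?_) j
    · rw [Fin.append_left]
      exact hδ' p hp i
    · rw [Fin.append_right]
      exact hω p hp i
  rw [← hs1, ← LP_twist, ← LP_twist, ← LP_twist, LP_eq hε (hb1 happ), LP_eq hε (hb1 hδ'),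
    LP_eq hε (hb1 hω), ← Complex.exp_add]
  congr 1
  have h1 : ∀ {b : ℕ} {α : ℕ → Fin b → ℂ}, (∀ p : ℕ, p.Prime → ∀ j, ‖α p j‖ ≤ (p : ℝ)) →
      Summable fun p : Nat.Primes => gl 3 (twist α τ) ε p := by
    intro b α hα
    refine Summable.of_norm_bounded (g := fun p : Nat.Primes => 2 * b * ((p : ℕ) : ℝ) ^ (-1 - ε))
      ((summable_primes hε).mul_left _) fun p => gl_le hε.le (hb1 hα) p p.2
  rw [← (h1 hδ').tsum_add (h1 hω)]
  refine tsum_congr fun p => ?_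
  unfold gl
  rw [Fin.sum_univ_add]
  congr 1
  · refine Finset.sum_congr rfl fun j _ => ?_
    simp only [twist, Fin.append_left]
  · refine Finset.sum_congr rfl fun j _ => ?_
    simp only [twist, Fin.append_right]

/-- **Products of a fixed variety with random curves.** -/
theorem near_product {nY sY DY p₀ b b₂ b' : ℕ} (gY : Fin sY → MvPolynomial (Fin (nY + 1)) ℤ)
    (g : Fin s → MvPolynomial (Fin (n + 1)) ℤ) (f : ∀ k, ι k → MvPolynomial (Fin (n + 1)) ℤ)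
    (dg : Fin s → ℕ) (df : Fin r → ℕ) (hg : ∀ a, (g a).IsHomogeneous (dg a))
    (hf : ∀ k i, (f k i).IsHomogeneous (df k))
    (betY : ℕ → ℕ) (βY : ℕ → ℕ → Multiset ℂ) (δ : ℕ → Fin b₂ → ℂ) (hDY : 1 ≤ DY)
    (hY : IsCohomology gY 1 DY p₀ betY βY δ)
    (t : ℕ → ℤ) (ht : ∀ p : ℕ, p.Prime → p₀ ≤ p → (βY p 1).sum = t p)
    (bet : ℕ → ℕ) (β : ℕ → ℕ → Multiset ℂ)
    (hW : IsCohomology g 0 (r + 1) p₀ bet β (fun _ (_ : Fin 1) => 1))
    (ω : ℕ → Fin b' → ℂ) (hω : IsTensor p₀ βY β ω)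
    (c₀ : (Σ k, ι k) → ℤ) (hs : IsSmoothAt (eqs g f (fun i => (c₀ i : ℂ))) (n - 1)) (M : ℝ)
    (hM : ∀ (p : ℕ) [Fact p.Prime], p₀ ≤ p → pairs g f p ≤ M * (p : ℝ) ^ 3)
    (C₀ : ℝ) (hmean : ∀ (p : ℕ) [Fact p.Prime], p₀ ≤ p →
      |(meanX g f p - coneY g p / (p : ℝ) ^ r) / ((p : ℝ) - 1)| ≤ C₀) :
    NearProduct g f p₀ t δ ω b := by
  classical
  obtain ⟨P, hP0, hP⟩ := exists_disc hg hf (n - 1) c₀ hs
  have htb : ∀ p : ℕ, p.Prime → p₀ ≤ p → |(t p : ℝ)| ≤ (betY 1 : ℕ) * (p : ℝ) ^ ((1 : ℝ) / 2) := by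
    intro p hp hpp
    have h1 := sum_le' (hY.card p hp hpp 1 (by omega))
      fun z hz => (hY.weight p hp hpp 1 (by omega) z hz).le
    rw [ht p hp hpp] at h1
    have : (t p : ℂ) = ((t p : ℝ) : ℂ) := by push_cast; rfl
    rw [this, Complex.norm_real, Real.norm_eq_abs] at h1
    simpa using h1
  have hωs : ∀ p : ℕ, p.Prime → p₀ ≤ p → ∑ j, ω p j = t p * (β p 1).sum := by
    intro p hp hpp
    have h1 := congrArg Multiset.sum (hω.eq p hp hpp)
    rw [prod_sum, ht p hp hpp] at h1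
    exact h1
  set w : ℕ → ℝ := fun p => -(t p : ℝ) / (((p : ℝ) - 1) * (p : ℝ) ^ 2) with hw
  have hfam := famW P c₀ hP0 w p₀ (4 * (betY 1 : ℝ) ^ 2 * |M|) (by positivity) (by
    intro p hpF hpp
    have hp := hpF.out
    have hp0 : (0 : ℝ) < p := by exact_mod_cast hp.pos
    have hp2 : (2 : ℝ) ≤ p := by exact_mod_cast hp.two_le
    have hp1 : (0 : ℝ) < (p : ℝ) - 1 := by linarith
    have h1 := htb p hp hpp
    have h2 : (t p : ℝ) ^ 2 ≤ (betY 1 : ℝ) ^ 2 * p := by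
      rw [← sq_abs]
      calc _ ≤ ((betY 1 : ℕ) * (p : ℝ) ^ ((1 : ℝ) / 2)) ^ 2 := by gcongr
        _ = _ := by
          rw [mul_pow, ← Real.rpow_natCast ((p : ℝ) ^ ((1 : ℝ) / 2)) 2, ← Real.rpow_mul hp0.le]
          norm_num
    have h3 : pairs g f p ≤ |M| * (p : ℝ) ^ 3 := by
      refine (hM p hpp).trans ?_
      gcongr
      exact le_abs_self M
    have h4 : (p : ℝ) ^ 2 ≤ 4 * ((p : ℝ) - 1) ^ 2 := by nlinarith
    calc w p ^ 2 * pairs g f p ≤ w p ^ 2 * (|M| * (p : ℝ) ^ 3) :=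
          mul_le_mul_of_nonneg_left h3 (sq_nonneg _)
      _ = (t p : ℝ) ^ 2 * (|M| / (((p : ℝ) - 1) ^ 2 * p)) := by
          rw [hw]
          field_simp
      _ ≤ ((betY 1 : ℝ) ^ 2 * p) * (|M| / (((p : ℝ) - 1) ^ 2 * p)) := by gcongr
      _ = (betY 1 : ℝ) ^ 2 * |M| / ((p : ℝ) - 1) ^ 2 := by field_simp
      _ ≤ 4 * (betY 1 : ℝ) ^ 2 * |M| / (p : ℝ) ^ 2 := by
          rw [div_le_div_iff₀ (by positivity) (by positivity)]
          have h5 : 0 ≤ (betY 1 : ℝ) ^ 2 * |M| := by positivity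
          nlinarith)
  have hC₀ : 0 ≤ C₀ := by
    obtain ⟨p, hp, hpp⟩ := Nat.exists_infinite_primes p₀
    have := Fact.mk hpp
    exact (abs_nonneg _).trans (hmean p hp)
  have hα₀ : ∀ p : ℕ, p.Prime → ∀ j, ‖Fin.append (δ p) (ω p) j‖ ≤ (p : ℝ) ^ 1 := by
    intro p hp j
    refine Fin.addCases (fun i => ?_) (fun i => ?_) j
    · rw [Fin.append_left]
      exact hY.bound p hp i
    · rw [Fin.append_right, pow_one]
      exact hω.bound p hp i
  have hB0 : 0 ≤ ∑ k ∈ range (2 * (r + 1) + 1), (bet k : ℝ) :=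
    Finset.sum_nonneg fun _ _ => by positivity
  obtain ⟨C, hC, h⟩ := majorant hfam (BB_zero_or P p₀) 1 1
    ((betY 1 : ℕ) * (1 + C₀ + ∑ k ∈ range (2 * (r + 1) + 1), (bet k : ℝ))) (by positivity) b
    (fun p => Fin.append (δ p) (ω p)) hα₀
  refine ⟨C, hC, fun H hH T hT => ?_⟩
  obtain ⟨M, hM0, hM1, hM2'⟩ := h H hH T hT
  have hlogH : 0 < Real.log H := Real.log_pos (by exact_mod_cast (by omega : 1 < H))
  have hM2 : ∀ (c : (Σ k, ι k) → ℤ) (α : ℕ → Fin b → ℂ) (ε τ : ℝ),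
      IsFrobeniusProduct g f p₀ t δ b c α → 1 / Real.log H ≤ ε → ε ≤ 1 → |τ| ≤ T →
      (Real.log ‖LP α (2 + ε + τ * Complex.I)‖ -
        (Real.log ‖LP δ (2 + ε + τ * Complex.I)‖ + Real.log ‖LP ω (2 + ε + τ * Complex.I)‖ +
          Real.log ‖riemannZeta (1 + ε + τ * Complex.I)‖)) ^ 2 ≤ M c := by
    intro c α ε τ hα hε hε1 hτ
    have hεp : 0 < ε := lt_of_lt_of_le (by positivity) hε
    have h1 := hM2' c α ε τ (relC hW htb hωs P hP C₀ hmean hα) hε hε1 hτ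
    have e1 : ((1 : ℕ) : ℂ) + 1 + ε + τ * Complex.I = 2 + ε + τ * Complex.I := by push_cast; ring
    rw [e1, LP_append hY.bound hω.bound ε τ hεp, norm_mul, Real.log_mul, one_mul] at h1
    · exact h1
    · have hb1 : ∀ p : ℕ, p.Prime → ∀ j,
          ‖twist δ τ p j‖ ≤ (p : ℝ) ^ ((((3 : ℕ) : ℝ) - 1) / 2) := by
        intro p hp j
        have e : (((3 : ℕ) : ℝ) - 1) / 2 = ((1 : ℕ) : ℝ) := by push_cast; ring
        rw [e, Real.rpow_natCast, twist_norm δ τ p hp]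
        exact hY.bound p hp j
      have hs1 : ss 3 ε = (2 : ℂ) + ε := by
        unfold ss
        push_cast
        ring
      rw [← hs1, ← LP_twist, LP_eq hεp hb1]
      exact norm_ne_zero_iff.mpr (Complex.exp_ne_zero _)
    · have hb1 : ∀ p : ℕ, p.Prime → ∀ j,
          ‖twist ω τ p j‖ ≤ (p : ℝ) ^ ((((3 : ℕ) : ℝ) - 1) / 2) := by
        intro p hp j
        have e : (((3 : ℕ) : ℝ) - 1) / 2 = 1 := by push_cast; ring
        rw [e, Real.rpow_one, twist_norm ω τ p hp]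
        exact hω.bound p hp j
      have hs1 : ss 3 ε = (2 : ℂ) + ε := by
        unfold ss
        push_cast
        ring
      rw [← hs1, ← LP_twist, LP_eq hεp hb1]
      exact norm_ne_zero_iff.mpr (Complex.exp_ne_zero _)
  have hB : (0 : ℝ) < (2 * H + 1 : ℝ) ^ Fintype.card (Σ k, ι k) := by positivity
  have hsum : ∑ c ∈ box (Σ k, ι k) H, M c ≤ C * (1 + T) * (box (Σ k, ι k) H).card := by
    calc _ = EB H M * (box (Σ k, ι k) H).card := by
          rw [EB, card_box]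
          field_simp
      _ ≤ _ := by gcongr
  refine ⟨fun S hS α ε τ hα hε => ?_, fun η hη => ?_⟩
  · calc _ ≤ ∑ c ∈ S, M c := Finset.sum_le_sum fun c hc =>
          hM2 c (α c) (ε c) (τ c) (hα c hc) (hε c hc).1 (hε c hc).2.1 (hε c hc).2.2
      _ ≤ ∑ c ∈ box (Σ k, ι k) H, M c :=
          Finset.sum_le_sum_of_subset_of_nonneg hS fun c _ _ => hM0 c
      _ ≤ _ := hsum
  · have hCT : 0 < C * (1 + T) := by positivity
    refine ⟨(box (Σ k, ι k) H).filter (fun c => C * (1 + T) / η < M c), Finset.filter_subset _ _, ?_, ?_⟩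
    · have h1 : (((box (Σ k, ι k) H).filter (fun c => C * (1 + T) / η < M c)).card : ℝ) *
          (C * (1 + T) / η) ≤ ∑ c ∈ (box (Σ k, ι k) H).filter (fun c => C * (1 + T) / η < M c), M c := by
        rw [← nsmul_eq_mul]
        exact Finset.card_nsmul_le_sum _ _ _ fun c hc => (Finset.mem_filter.mp hc).2.le
      have h2 : ∑ c ∈ (box (Σ k, ι k) H).filter (fun c => C * (1 + T) / η < M c), M c ≤
          ∑ c ∈ box (Σ k, ι k) H, M c :=
        Finset.sum_le_sum_of_subset_of_nonneg (Finset.filter_subset _ _) fun c _ _ => hM0 c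
      have h3 := (h1.trans h2).trans hsum
      rw [mul_div_assoc', div_le_iff₀ hη] at h3
      have h4 : (C * (1 + T)) *
          (((box (Σ k, ι k) H).filter (fun c => C * (1 + T) / η < M c)).card : ℝ) ≤
          (C * (1 + T)) * (η * (box (Σ k, ι k) H).card) := by linarith
      exact le_of_mul_le_mul_left h4 hCT
    · intro c hc α hα ε τ hε0 hε1 hτ
      rw [Finset.mem_sdiff, Finset.mem_filter, not_and, not_lt] at hc
      have h1 := hM2 c α ε τ hα hε0 hε1 hτ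
      have h2 := h1.trans (hc.2 hc.1)
      refine ⟨?_, Real.abs_le_sqrt h2⟩
      have hεp : 0 < ε := lt_of_lt_of_le (by positivity) hε0
      have hs1 : ss 3 ε = (2 : ℂ) + ε := by
        unfold ss
        push_cast
        ring
      have hbound : ∀ p : ℕ, p.Prime → ∀ j,
          ‖twist α τ p j‖ ≤ (p : ℝ) ^ ((((3 : ℕ) : ℝ) - 1) / 2) := by
        intro p hp j
        have e : (((3 : ℕ) : ℝ) - 1) / 2 = 1 := by push_cast; ring
        rw [e, Real.rpow_one, twist_norm α τ p hp]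
        exact hα.bound p hp j
      rw [← hs1, ← LP_twist, LP_eq hεp hbound]
      exact Complex.exp_ne_zero _

end Pool.Agent.L7h11.RS
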