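import Mathlib
import Pool.Agent.L7h11.RS.Curve

/-!
# Products of a fixed variety and random complete intersection curves in a projective space
-/

set_option autoImplicit false

namespace Pool.Agent.L7h11.RS

open Finset Pool.Agent.Y722.HS Pool.Agent.Y722.LS

theorem LP_empty (s : ℂ) : LP (fun _ (j : Fin 0) => j.elim0) s = 1 := by
  unfold LP
  simp

theorem near_product_space {nY sY DY p₀ b b₂ : ℕ} (gY : Fin sY → MvPolynomial (Fin (nY + 1)) ℤ)
    (betY : ℕ → ℕ) (βY : ℕ → ℕ → Multiset ℂ) (δ : ℕ → Fin b₂ → ℂ) (hDY : 1 ≤ DY)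
    (hY : IsCohomology gY 1 DY p₀ betY βY δ)
    (t : ℕ → ℤ) (ht : ∀ p : ℕ, p.Prime → p₀ ≤ p → (βY p 1).sum = t p) (r d : ℕ) (hd : 1 ≤ d) :
    NearProduct (n := 1 + r) (s := 0) (r := r) (ι := fun _ => Mon (1 + r) d) Fin.elim0
      (fun _ => mons (1 + r) d) p₀ t δ (fun _ (j : Fin 0) => j.elim0) b := by
  obtain ⟨c₀, hs⟩ := smooth_member (n := 1 + r) hd r (1 + r - 1) (by omega) Fin.elim0
  have h1 := coh_proj (n := 1 + r) Fin.elim0 0
  have hW : IsCohomology (n := 1 + r) (s := 0) Fin.elim0 0 (r + 1) p₀ (fun k => if Even k then 1 else 0)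
      projCoh (fun _ (_ : Fin 1) => 1) := by
    have e1 : (fun (p : ℕ) (_ : Fin 1) => (p : ℂ) ^ 0) = fun _ (_ : Fin 1) => 1 := by
      funext p j
      simp
    rw [e1, show 1 + r = r + 1 by ring] at h1
    have e2 : 1 + r = r + 1 := by ring
    refine ⟨fun p hp _ => h1.card p hp (Nat.zero_le _), fun p hp _ => h1.weight p hp (Nat.zero_le _),
      ?_, fun p hp _ => h1.lefschetz p hp (Nat.zero_le _), fun p hp _ => h1.middle p hp (Nat.zero_le _),
      h1.bound⟩
    intro p hp _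
    have h2 := (coh_proj (n := 1 + r) Fin.elim0 0).count p hp (Nat.zero_le _)
    rw [h2, e2]
  refine near_product (n := 1 + r) (s := 0) (r := r) gY Fin.elim0 (fun _ => mons (1 + r) d)
    (fun _ => 0) (fun _ => d) (fun a => a.elim0) (fun _ i => mons_hom i) betY βY δ hDY hY t ht _ projCoh
    hW _ ⟨fun p hp hpp => ?_, fun p hp j => j.elim0⟩ c₀ hs 1
    (fun p _ _ => pairs_mons hd 1 rfl Fin.elim0) 0 ?_
  · have h3 : projCoh p 1 = 0 := by
      unfold projCoh
      rw [if_neg (by norm_num)]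
    rw [h3, Multiset.product_zero, Multiset.map_zero]
    rfl
  · intro p hpF _
    rw [meanX_mons]
    simp

end Pool.Agent.L7h11.RS
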