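import Mathlib
import Pool.Agent.L7h11.RS.Space

/-!
# The L-functions of random complete intersections in a fixed variety: assembly
-/

set_option autoImplicit false

namespace Pool.Agent.L7h11.RS

open Pool.Agent.Y722.HS Pool.Agent.Y722.LS

lemma near {n s r m D p₀ b b₀ : ℕ} {ι : Fin r → Type} [∀ k, Fintype (ι k)] [∀ k, DecidableEq (ι k)]
    (g : Fin s → MvPolynomial (Fin (n + 1)) ℤ) (f : ∀ k, ι k → MvPolynomial (Fin (n + 1)) ℤ)
    (dg : Fin s → ℕ) (df : Fin r → ℕ) (hg : ∀ a, (g a).IsHomogeneous (dg a))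
    (hf : ∀ k i, (f k i).IsHomogeneous (df k)) (hD : D = 2 * m + r)
    (bet : ℕ → ℕ) (β : ℕ → ℕ → Multiset ℂ) (α₀ : ℕ → Fin b₀ → ℂ)
    (hY : IsCohomology g m D p₀ bet β α₀)
    (c₀ : (Σ k, ι k) → ℤ) (hs : IsSmoothAt (eqs g f (fun i => (c₀ i : ℂ))) (n - 2 * m)) (M : ℝ)
    (hM : ∀ (p : ℕ) [Fact p.Prime], p₀ ≤ p → pairs g f p ≤ M * (p : ℝ) ^ (2 * m + 2))
    (e C₀ : ℝ) (hmean : ∀ (p : ℕ) [Fact p.Prime], p₀ ≤ p →
      |(meanX g f p - coneY g p / (p : ℝ) ^ r) / ((p : ℝ) - 1) - e * (p : ℝ) ^ m| ≤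
        C₀ * (p : ℝ) ^ ((m : ℝ) - 1 / 2)) : NearLine g f m p₀ β α₀ b e := by
  classical
  obtain ⟨P, hP0, hP⟩ := exists_disc hg hf (n - 2 * m) c₀ hs
  have hM' : ∀ (p : ℕ) [Fact p.Prime], p₀ ≤ p → pairs g f p ≤ |M| * (p : ℝ) ^ (2 * m + 2) := by
    intro p _ hp
    refine (hM p hp).trans ?_
    gcongr
    exact le_abs_self M
  have hfam := fam P c₀ hP0 m p₀ |M| (abs_nonneg M) hM'
  have hC₀ : 0 ≤ C₀ := by
    obtain ⟨p, hp, hpp⟩ := Nat.exists_infinite_primes p₀
    have := Fact.mk hpp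
    have h1 := (abs_nonneg _).trans (hmean p hp)
    have h2 : (0 : ℝ) < (p : ℝ) ^ ((m : ℝ) - 1 / 2) := by
      have : (0 : ℝ) < p := by exact_mod_cast hpp.pos
      positivity
    by_contra hcon
    push Not at hcon
    nlinarith
  obtain ⟨C, hC, h⟩ := majorant hfam (BB_zero_or P p₀) m e
    (C₀ + 2 * ∑ k ∈ Finset.range (2 * D + 1), (bet k : ℝ)) (by positivity) b α₀ hY.bound
  refine ⟨C, hC, fun H hH T hT => ?_⟩
  obtain ⟨M, hM0, hM1, hM2⟩ := h H hH T hT
  have hB : (0 : ℝ) < (2 * H + 1 : ℝ) ^ Fintype.card (Σ k, ι k) := by positivity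
  have hsum : ∑ c ∈ box (Σ k, ι k) H, M c ≤ C * (1 + T) * (box (Σ k, ι k) H).card := by
    calc _ = EB H M * (box (Σ k, ι k) H).card := by
          rw [EB, card_box]
          field_simp
      _ ≤ _ := by gcongr
  refine ⟨fun S hS α ε τ hα hε => ?_, fun δ hδ => ?_⟩
  · calc _ ≤ ∑ c ∈ S, M c := Finset.sum_le_sum fun c hc =>
          hM2 c (α c) (ε c) (τ c) (rel hD hY P hP e C₀ hmean (hα c hc)) (hε c hc).1 (hε c hc).2.1
            (hε c hc).2.2
      _ ≤ ∑ c ∈ box (Σ k, ι k) H, M c :=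
          Finset.sum_le_sum_of_subset_of_nonneg hS fun c _ _ => hM0 c
      _ ≤ _ := hsum
  · have hCT : 0 < C * (1 + T) := by positivity
    refine ⟨(box (Σ k, ι k) H).filter (fun c => C * (1 + T) / δ < M c), Finset.filter_subset _ _, ?_, ?_⟩
    · have h1 : (((box (Σ k, ι k) H).filter (fun c => C * (1 + T) / δ < M c)).card : ℝ) *
          (C * (1 + T) / δ) ≤ ∑ c ∈ (box (Σ k, ι k) H).filter (fun c => C * (1 + T) / δ < M c), M c := by
        rw [← nsmul_eq_mul]
        exact Finset.card_nsmul_le_sum _ _ _ fun c hc => (Finset.mem_filter.mp hc).2.le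
      have h2 : ∑ c ∈ (box (Σ k, ι k) H).filter (fun c => C * (1 + T) / δ < M c), M c ≤
          ∑ c ∈ box (Σ k, ι k) H, M c :=
        Finset.sum_le_sum_of_subset_of_nonneg (Finset.filter_subset _ _) fun c _ _ => hM0 c
      have h3 := (h1.trans h2).trans hsum
      rw [mul_div_assoc', div_le_iff₀ hδ] at h3
      have h4 : (C * (1 + T)) *
          (((box (Σ k, ι k) H).filter (fun c => C * (1 + T) / δ < M c)).card : ℝ) ≤
          (C * (1 + T)) * (δ * (box (Σ k, ι k) H).card) := by linarith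
      exact le_of_mul_le_mul_left h4 hCT
    · intro c hc α hα ε τ hε0 hε1 hτ
      rw [Finset.mem_sdiff, Finset.mem_filter, not_and, not_lt] at hc
      have h1 := hM2 c α ε τ (rel hD hY P hP e C₀ hmean hα) hε0 hε1 hτ
      have h2 := h1.trans (hc.2 hc.1)
      refine ⟨?_, Real.abs_le_sqrt h2⟩
      have hlogH : 0 < Real.log H := Real.log_pos (by exact_mod_cast (by omega : 1 < H))
      have hεp : 0 < ε := lt_of_lt_of_le (by positivity) hε0
      have hs1 : ss (2 * m + 1) ε = (m : ℂ) + 1 + ε := by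
        unfold ss
        push_cast
        ring
      have hbound : ∀ p : ℕ, p.Prime → ∀ j,
          ‖Pool.Agent.N534.TL.twist α τ p j‖ ≤ (p : ℝ) ^ ((((2 * m + 1 : ℕ) : ℝ) - 1) / 2) := by
        intro p hp j
        have e : (((2 * m + 1 : ℕ) : ℝ) - 1) / 2 = (m : ℝ) := by push_cast; ring
        rw [e, Real.rpow_natCast, Pool.Agent.N534.TL.twist_norm α τ p hp]
        exact hα.bound p hp j
      rw [← hs1, ← Pool.Agent.N534.TL.LP_twist, LP_eq hεp hbound]
      exact Complex.exp_ne_zero _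

/-- all the complete intersections of forms of degree `d` in the projective space -/
lemma near_space (r m d b : ℕ) (hd : 1 ≤ d) :
    NearLine (n := 2 * m + r) (s := 0) (r := r) (ι := fun _ => Mon (2 * m + r) d) Fin.elim0
      (fun _ => mons (2 * m + r) d) m 0 projCoh (fun p (_ : Fin 1) => (p : ℂ) ^ m) b 0 := by
  obtain ⟨c₀, hs⟩ := smooth_member (n := 2 * m + r) hd r (2 * m + r - 2 * m) (by omega) Fin.elim0
  refine near (n := 2 * m + r) (s := 0) (r := r) Fin.elim0 (fun _ => mons (2 * m + r) d)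
    (fun _ => 0) (fun _ => d) (fun a => a.elim0) (fun _ i => mons_hom i) rfl _ projCoh _
    (coh_proj Fin.elim0 m) c₀ hs 1 (fun p _ _ => pairs_mons hd (2 * m) rfl Fin.elim0) 0 0 ?_
  intro p hpF _
  rw [meanX_mons]
  simp

end Pool.Agent.L7h11.RS
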